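import Pool.Agent.Lib_MP_70e04f_thin.TCreA

/-!
# Piece TCREB: the dimension of a system and of its quadratic transform
-/

set_option autoImplicit false

namespace Pool.MP_70e04f_ag.Cre

open MvPolynomial

/-- PROOF. As the proof of `S.cremona` (`Lib_MP_70e04f_cre/ConfS.lean`), with the dimensions instead
of the alternative: `finrank_W_hat`, `finrank_W_mat` with the adjugate of `mat ι p`, `W_smul`,
`finrank_cremona`, `finrank_W_mat` with `mat ι p`, `W_smul`, `finrank_W_hat`. -/
theorem finrank_V_crm {n d d' δ : ℕ} {m : Fin n → ℕ} {ι : Fin 3 → Fin n}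
    (hι : Function.Injective ι) (hd : d' + δ = d) (hsum : ∑ j, m (ι j) = d + δ)
    (hlow : ∀ j, δ ≤ m (ι j) + 1) (hup : ∀ j, m (ι j) ≤ d)
    {p : Fin n → Fin 2 → ℂ} (hp : Good ι p) :
    Module.finrank ℂ ↥(V d' (cm m ι δ) (crm ι p)) = Module.finrank ℂ ↥(V d m p) := by
  classical
  obtain ⟨hD, hl⟩ := hp
  have hDa : (mat ι p).adjugate.det ≠ 0 := by
    rw [Matrix.det_adjugate]
    exact pow_ne_zero _ hD
  let c1 : Fin n → ℂ := fun i => if i ∈ Finset.univ.image ι then (mat ι p).det⁻¹ else
    img ι p i 2 / (mat ι p).det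
  have hc1 : ∀ i, c1 i ≠ 0 := by
    intro i
    change (if i ∈ Finset.univ.image ι then (mat ι p).det⁻¹ else
      img ι p i 2 / (mat ι p).det) ≠ 0
    by_cases hi : i ∈ Finset.univ.image ι
    · rw [if_pos hi]
      exact inv_ne_zero hD
    · rw [if_neg hi]
      exact div_ne_zero (hl i hi).2 hD
  let c2 : Fin n → ℂ := fun i => if i ∈ Finset.univ.image ι then (mat ι p).det⁻¹ else 1
  have hc2 : ∀ i, c2 i ≠ 0 := by
    intro i
    change (if i ∈ Finset.univ.image ι then (mat ι p).det⁻¹ else (1 : ℂ)) ≠ 0
    by_cases hi : i ∈ Finset.univ.image ι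
    · rw [if_pos hi]
      exact inv_ne_zero hD
    · rw [if_neg hi]
      exact one_ne_zero
  have hmem : ∀ j, ι j ∈ Finset.univ.image ι := fun j =>
    Finset.mem_image_of_mem ι (Finset.mem_univ j)
  have h4 := finrank_cremona hι hd hsum hlow hup (q := fun i => c2 i • bar ι p i)
    (q' := fun i => c1 i • (mat ι p).adjugate.mulVec (hat (crm ι p i)))
    (by
      intro j
      change (if ι j ∈ Finset.univ.image ι then (mat ι p).det⁻¹ else (1 : ℂ)) • bar ι p (ι j) = _
      rw [if_pos (hmem j), confS_col, smul_smul, inv_mul_cancel₀ hD, one_smul])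
    (by
      intro j
      change (if ι j ∈ Finset.univ.image ι then (mat ι p).det⁻¹ else
        img ι p (ι j) 2 / (mat ι p).det) • (mat ι p).adjugate.mulVec (hat (crm ι p (ι j))) = _
      have e1 : crm ι p (ι j) = p (ι j) := by
        unfold crm
        rw [if_pos (hmem j)]
      rw [if_pos (hmem j), e1]
      have e2 := confS_col ι p j
      unfold bar at e2
      rw [e2, smul_smul, inv_mul_cancel₀ hD, one_smul])
    (by
      intro l hl'
      obtain ⟨k1, k2⟩ := hl l hl'
      have e0 : c2 l • bar ι p l = bar ι p l := by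
        change (if l ∈ Finset.univ.image ι then (mat ι p).det⁻¹ else (1 : ℂ)) • bar ι p l = _
        rw [if_neg hl', one_smul]
      have e1 : hat (crm ι p l) = (img ι p l 2)⁻¹ • img ι p l := by
        unfold crm
        rw [if_neg hl']
        funext c
        fin_cases c
        · change img ι p l 0 / img ι p l 2 = (img ι p l 2)⁻¹ * img ι p l 0
          rw [div_eq_inv_mul]
        · change img ι p l 1 / img ι p l 2 = (img ι p l 2)⁻¹ * img ι p l 1
          rw [div_eq_inv_mul]
        · change (1 : ℂ) = (img ι p l 2)⁻¹ * img ι p l 2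
          rw [inv_mul_cancel₀ k2]
      refine ⟨fun c => ?_, ?_⟩
      · change (c2 l • bar ι p l) c ≠ 0
        rw [e0]
        exact k1 c
      · change c1 l • (mat ι p).adjugate.mulVec (hat (crm ι p l)) = sg (c2 l • bar ι p l)
        rw [e0, e1, Matrix.mulVec_smul]
        have e3 : (mat ι p).adjugate.mulVec (img ι p l) = (mat ι p).det • sg (bar ι p l) := by
          unfold img
          rw [Matrix.mulVec_mulVec, Matrix.adjugate_mul, Matrix.smul_mulVec, Matrix.one_mulVec]
        change (if l ∈ Finset.univ.image ι then (mat ι p).det⁻¹ else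
          img ι p l 2 / (mat ι p).det) • _ = _
        rw [if_neg hl', e3, smul_smul, smul_smul]
        have e4 : img ι p l 2 / (mat ι p).det * (img ι p l 2)⁻¹ * (mat ι p).det = 1 := by
          field_simp
        rw [e4, one_smul])
  have a1 : W d' (cm m ι δ) (fun i => c1 i • (mat ι p).adjugate.mulVec (hat (crm ι p i))) =
      W d' (cm m ι δ) (fun i => (mat ι p).adjugate.mulVec (hat (crm ι p i))) :=
    W_smul (q := fun i => (mat ι p).adjugate.mulVec (hat (crm ι p i))) c1 hc1
  have a2 := finrank_W_mat (d := d') (m := cm m ι δ) (q := fun i => hat (crm ι p i))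
    (mat ι p).adjugate hDa
  have a3 := finrank_W_hat d' (cm m ι δ) (crm ι p)
  have b1 := finrank_W_mat (d := d) (m := m) (q := fun i => c2 i • bar ι p i) (mat ι p) hD
  have b2 := finrank_W_hat d m p
  have e : (fun i => (mat ι p).mulVec (c2 i • bar ι p i)) =
      fun i => (c2 i * (mat ι p).det) • hat (p i) := by
    funext i
    have e3 : (mat ι p).mulVec (bar ι p i) = (mat ι p).det • hat (p i) := by
      unfold bar
      rw [Matrix.mulVec_mulVec, Matrix.mul_adjugate, Matrix.smul_mulVec, Matrix.one_mulVec]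
    rw [Matrix.mulVec_smul, e3, smul_smul]
  have b3 : W d m (fun i => (mat ι p).mulVec (c2 i • bar ι p i)) =
      W d m (fun i => hat (p i)) := by
    rw [e]
    exact W_smul (q := fun i => hat (p i)) (fun i => c2 i * (mat ι p).det)
      (fun i => mul_ne_zero (hc2 i) hD)
  rw [a1, a2, a3] at h4
  rw [b3, b2] at b1
  rw [h4, ← b1]

end Pool.MP_70e04f_ag.Cre
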