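import Pool.Agent.Lib_MP_70e04f_thin.TDefs

/-!
# Piece TEFFB: curves and maximal minors
-/

set_option autoImplicit false

namespace Pool.MP_70e04f_ag.Strip

open MvPolynomial

/-- No curve at `p` iff some maximal minor does not vanish at `p`.
PROOF. (→) If there is no nonzero `f ∈ Pt k e` in `Iz p a` then the kernel of `condMat (e + 1) a p` is
zero (`toPoly_mem_iff`, `mem_range_toPoly` and the injectivity of `toPoly`), so the rank of the matrix
is the number of the columns (it is `Good` and
`Fintype.card ↥(tri (e + 1)) ≤ Fintype.card (Σ i, ↥(tri (a i)))`); `exists_minor_left`. (←) If the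
minor with the rows `f` is not zero then the kernel is zero, and every `g ∈ Pt k e`, `g ∈ Iz p a` is
`toPoly v` with `(condMat (e + 1) a p).mulVec v = 0`, so `g = 0`. Compare the proof of `EXP.good`
(`Lib_MP_70e04f_strip/SExp.lean`). -/
theorem no_curve_iff {k : Type*} [Field k] {n : ℕ} (e : ℕ) (a : Fin n → ℕ) (p : Fin n → Fin 2 → k) :
    (¬ ∃ f : A2 k, f ≠ 0 ∧ f ∈ Pt k e ∧ f ∈ Iz p a) ↔
      ∃ f : ↥(tri (e + 1)) → (Σ i : Fin n, ↥(tri (a i))),
        ((condMat (e + 1) a p).submatrix f id).det ≠ 0 := by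
  have hsys : ∀ g : A2 k, (g ∈ Pt k e ∧ g ∈ Iz p a) ↔
      ∃ v, (condMat (e + 1) a p).mulVec v = 0 ∧ toPoly k (e + 1) v = g := by
    intro g
    have h1 : g ∈ Pt k e ⊓ sp (Iz p a) ↔ (g ∈ Pt k e ∧ g ∈ Iz p a) := by
      rw [Submodule.mem_inf, mem_sp]
    rw [← h1, SExp_system, system_eq_map, Submodule.mem_map]
    constructor
    · rintro ⟨v, hv, rfl⟩
      exact ⟨v, by simpa using hv, rfl⟩
    · rintro ⟨v, hv, rfl⟩
      exact ⟨v, by simpa using hv, rfl⟩
  constructor
  · intro h
    have hker : LinearMap.ker (condMat (e + 1) a p).mulVecLin = ⊥ := by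
      rw [LinearMap.ker_eq_bot']
      intro v hv
      rw [Matrix.mulVecLin_apply] at hv
      by_contra hv0
      apply h
      refine ⟨toPoly k (e + 1) v, ?_, (hsys _).2 ⟨v, hv, rfl⟩⟩
      intro h0
      apply hv0
      apply toPoly_injective k (e + 1)
      rw [h0, map_zero]
    have hgood : Good (condMat (e + 1) a p) := by
      unfold Good
      rw [hker, finrank_bot]
      exact Nat.zero_le _
    have hcard := LinearMap.finrank_le_finrank_of_injective (LinearMap.ker_eq_bot.1 hker)
    rw [Module.finrank_fintype_fun_eq_card, Module.finrank_fintype_fun_eq_card] at hcard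
    classical
    obtain ⟨f, hf⟩ := exists_minor_left hgood hcard
    refine ⟨f, ?_⟩
    intro h0
    apply hf
    rw [← h0]
  · rintro ⟨f, hf⟩ ⟨g, hg0, hg⟩
    obtain ⟨v, hv, rfl⟩ := (hsys g).1 hg
    apply hg0
    have h1 : ((condMat (e + 1) a p).submatrix f id).mulVec v = 0 := by
      funext i
      exact congrFun hv (f i)
    rw [Matrix.eq_zero_of_mulVec_eq_zero hf h1, map_zero]

end Pool.MP_70e04f_ag.Strip
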