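import Pool.Agent.Lib_MP_70e04f_thin.TEffA
import Pool.Agent.Lib_MP_70e04f_thin.TEffB
import Pool.Agent.Lib_MP_70e04f_thin.TCreB

/-!
# Piece TCRE: quadratic transformations of effective classes
-/

set_option autoImplicit false

namespace Pool.MP_70e04f_ag.Strip

open MvPolynomial

/-- PROOF. `Cre.V d m p` is `Pt ℂ d ⊓ sp (Iz p m)` (`mem_Iz`); a finite dimensional space contains a
nonzero vector iff its dimension is not zero. -/
theorem exists_curve_iff {n : ℕ} (d : ℕ) (m : Fin n → ℕ) (p : Fin n → Fin 2 → ℂ) :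
    (∃ f : A2 ℂ, f ≠ 0 ∧ f ∈ Pt ℂ d ∧ f ∈ Iz p m) ↔
      Module.finrank ℂ ↥(Cre.V d m p) ≠ 0 := by
  have hfin : Module.Finite ℂ ↥(Cre.V d m p) := Submodule.finiteDimensional_inf_left _ _
  have hmem : ∀ f : A2 ℂ, f ∈ Cre.V d m p ↔ f ∈ Pt ℂ d ∧ f ∈ Iz p m := by
    intro f
    unfold Cre.V
    rw [Submodule.mem_inf, Submodule.mem_iInf, mem_Iz]
    exact Iff.rfl
  rw [Ne, Submodule.finrank_eq_zero, Submodule.eq_bot_iff]
  push Not
  constructor
  · rintro ⟨f, hf, h1, h2⟩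
    exact ⟨f, (hmem f).2 ⟨h1, h2⟩, hf⟩
  · rintro ⟨f, h1, hf⟩
    exact ⟨f, hf, (hmem f).1 h1⟩

/-- PROOF. Suppose that the class `(e'; cm a ι δ)` is not effective at some complex configuration.
By `no_curve_iff`, `minor_map` some maximal minor of `Bz` is a nonzero polynomial; let `g'` be its
image in `MvPolynomial (Fin n × Fin 2) ℂ` (`map (Int.castRingHom ℂ)`), `g' ≠ 0`.
`Cre.exists_generic ι hι g'` gives `g ≠ 0`; let `p` be a configuration with `g p ≠ 0`: it is good and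
`g' (crm ι p) ≠ 0`, so the class is not effective at `crm ι p` (`no_curve_iff`), the dimension of
`V e' (cm a ι δ) (crm ι p)` is zero, by `finrank_V_crm` so is the one of `V e a p`: contradiction to
`Eff0 e a`. (`hlow`: from `hpair`.) -/
theorem Eff0.cremona {n e e' δ : ℕ} {a : Fin n → ℕ} {ι : Fin 3 → Fin n}
    (hι : Function.Injective ι) (hd : e' + δ = e) (hsum : ∑ j, a (ι j) = e + δ)
    (hpair : ∀ j k, j ≠ k → a (ι j) + a (ι k) ≤ e + 1) (hup : ∀ j, a (ι j) ≤ e)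
    (h : Eff0 e a) : Eff0 e' (Cre.cm a ι δ) := by
  intro p0
  by_contra hcon
  have hlow : ∀ j, δ ≤ a (ι j) + 1 := by
    have hs3 : ∑ j, a (ι j) = a (ι 0) + a (ι 1) + a (ι 2) := Fin.sum_univ_three _
    have h01 := hpair 0 1 (by decide)
    have h02 := hpair 0 2 (by decide)
    have h12 := hpair 1 2 (by decide)
    intro j
    fin_cases j
    · change δ ≤ a (ι 0) + 1; omega
    · change δ ≤ a (ι 1) + 1; omega
    · change δ ≤ a (ι 2) + 1; omega
  obtain ⟨f, hf⟩ := (no_curve_iff e' (Cre.cm a ι δ) p0).1 hcon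
  obtain ⟨g0, hg0⟩ : ∃ g0, g0 = ((Bz n (e' + 1) (Cre.cm a ι δ)).submatrix f id).det := ⟨_, rfl⟩
  have hev : ∀ p : Fin n → Fin 2 → ℂ, MvPolynomial.eval (fun q : Fin n × Fin 2 => p q.1 q.2)
      (MvPolynomial.map (Int.castRingHom ℂ) g0) =
        ((condMat (e' + 1) (Cre.cm a ι δ) p).submatrix f id).det := by
    intro p
    rw [← minor_map p f, hg0, eval_map]
    rfl
  have hne : MvPolynomial.map (Int.castRingHom ℂ) g0 ≠ 0 := by
    intro h0
    have h1 := hev p0
    rw [h0, map_zero] at h1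
    exact hf h1.symm
  obtain ⟨g, hg, hg2⟩ := Cre.exists_generic ι hι _ hne
  obtain ⟨x, hx⟩ : ∃ x : Fin n × Fin 2 → ℂ, MvPolynomial.eval x g ≠ 0 := by
    by_contra hc
    push Not at hc
    exact hg (MvPolynomial.funext fun x => by rw [hc x, map_zero])
  obtain ⟨hgood, h2⟩ := hg2 (fun i c => x (i, c)) hx
  rw [hev] at h2
  have h3 := (no_curve_iff e' (Cre.cm a ι δ) _).2 ⟨f, h2⟩
  rw [exists_curve_iff, not_not, Cre.finrank_V_crm hι hd hsum hlow hup hgood] at h3
  exact (exists_curve_iff e a _).1 (h _) h3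

end Pool.MP_70e04f_ag.Strip
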