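import Pool.Agent.Lib_MP_70e04f_cre.ConfS
import Pool.Agent.Lib_MP_70e04f_cre.GenD

/-!
# Piece TCREA: the dimension of a system after a linear substitution
-/

set_option autoImplicit false

namespace Pool.MP_70e04f_ag.Cre

open MvPolynomial

/-- The space is transported by an algebra equivalence which respects degrees and ideals. -/
theorem TCreA_map {n d : ℕ} {m : Fin n → ℕ} {q q' : Fin n → Fin 3 → ℂ}
    (φ : R3 ≃ₐ[ℂ] R3) (h1 : ∀ F : R3, ∀ e, (φ F).IsHomogeneous e ↔ F.IsHomogeneous e)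
    (h2 : ∀ F : R3, ∀ e, F.IsHomogeneous e → ∀ i j, φ F ∈ mi (q' i) ^ j ↔ F ∈ mi (q i) ^ j) :
    W d m q' = (W d m q).map (φ.toLinearEquiv : R3 →ₗ[ℂ] R3) := by
  ext G
  rw [Submodule.mem_map, CRLIN_mem_W]
  constructor
  · rintro ⟨hG, hG'⟩
    refine ⟨φ.symm G, ?_, φ.apply_symm_apply G⟩
    have h3 : (φ.symm G).IsHomogeneous d := by
      rw [← h1, φ.apply_symm_apply]
      exact hG
    refine CRLIN_mem_W.mpr ⟨h3, fun i => ?_⟩
    rw [← h2 _ d h3, φ.apply_symm_apply]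
    exact hG' i
  · rintro ⟨F, hF, rfl⟩
    obtain ⟨hF1, hF2⟩ := CRLIN_mem_W.mp hF
    exact ⟨(h1 F d).mpr hF1, fun i => (h2 F d hF1 i _).mpr (hF2 i)⟩

/-- PROOF. `F ↦ lin A⁻¹ F` and `F ↦ lin A F` are inverse bijections between `W d m q` and
`W d m (A q)` (see the proofs of `CRLIN_transfer`, `HS.mat` in `Lib_MP_70e04f_cre/Lin.lean`). -/
theorem finrank_W_mat {n d : ℕ} {m : Fin n → ℕ} {q : Fin n → Fin 3 → ℂ}
    (A : Matrix (Fin 3) (Fin 3) ℂ) (hA : A.det ≠ 0) :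
    Module.finrank ℂ ↥(W d m (fun i => A.mulVec (q i))) = Module.finrank ℂ ↥(W d m q) := by
  have hu : IsUnit A.det := isUnit_iff_ne_zero.mpr hA
  have h1 : A * A⁻¹ = 1 := Matrix.mul_nonsing_inv A hu
  have h2 : A⁻¹ * A = 1 := Matrix.nonsing_inv_mul A hu
  let φ : R3 ≃ₐ[ℂ] R3 := AlgEquiv.ofAlgHom (lin A⁻¹) (lin A)
    (AlgHom.ext fun F => CRLIN_lin_lin h1 F) (AlgHom.ext fun F => CRLIN_lin_lin h2 F)
  have hφ : ∀ F, φ F = lin A⁻¹ F := fun F => rfl
  have e1 : W d m (fun i => A.mulVec (q i)) = (W d m q).map (φ.toLinearEquiv : R3 →ₗ[ℂ] R3) := by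
    refine TCreA_map φ (fun F e => ⟨fun h3 => ?_, fun h3 => ?_⟩)
      (fun F e he i j => ⟨fun h3 => ?_, fun h3 => ?_⟩)
    · have h4 := CRLIN_hom A h3
      rwa [hφ, CRLIN_lin_lin h2] at h4
    · rw [hφ]
      exact CRLIN_hom _ h3
    · have h4 := mem_pow_map (q' := q i) (lin A) (fun G => eval_lin A G (q i)) h3
      rwa [hφ, CRLIN_lin_lin h2] at h4
    · rw [hφ]
      refine mem_pow_map (lin A⁻¹) (fun G => ?_) h3
      rw [eval_lin, Matrix.mulVec_mulVec, h2, Matrix.one_mulVec]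
  rw [e1]
  exact LinearEquiv.finrank_map_eq _ _

/-- PROOF. The two spaces are equal (as in `HS.smul`, for `c` and `c⁻¹`). -/
theorem W_smul {n d : ℕ} {m : Fin n → ℕ} {q : Fin n → Fin 3 → ℂ} (c : Fin n → ℂ)
    (hc : ∀ i, c i ≠ 0) : W d m (fun i => c i • q i) = W d m q := by
  ext F
  rw [CRLIN_mem_W, CRLIN_mem_W]
  refine and_congr_right fun he => forall_congr' fun i => ?_
  constructor
  · intro h1
    have h2 := mem_mi_smul (inv_ne_zero (hc i)) he h1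
    rwa [smul_smul, inv_mul_cancel₀ (hc i), one_smul] at h2
  · exact mem_mi_smul (hc i) he

end Pool.MP_70e04f_ag.Cre
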