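import Pool.Agent.Lib_MP_70e04f_strip.SFinal

/-!
# The thin strip (SHGH): effective classes

`Eff0 e a`: for all configurations of complex points there is a curve of degree `≤ e` with
multiplicities `≥ a`. `EffL n ℓ e a`: the same for the generic points `gp n ℓ` in characteristic `ℓ`.
See `Blueprint.md`.
-/

set_option autoImplicit false

namespace Pool.MP_70e04f_ag.Strip

open MvPolynomial

/-- the class `(e; a)` is effective for all complex configurations -/
def Eff0 {n : ℕ} (e : ℕ) (a : Fin n → ℕ) : Prop :=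
  ∀ p : Fin n → Fin 2 → ℂ, ∃ f : A2 ℂ, f ≠ 0 ∧ f ∈ Pt ℂ e ∧ f ∈ Iz p a

/-- the class `(e; a)` is effective for the generic points in characteristic `ℓ` -/
def EffL (n ℓ : ℕ) [Fact ℓ.Prime] (e : ℕ) (a : Fin n → ℕ) : Prop :=
  ∃ f : A2 (KK n ℓ), f ≠ 0 ∧ f ∈ Pt (KK n ℓ) e ∧ f ∈ Iz (gp n ℓ) a

/-- the points outside of the nine points `α` -/
def Sm {n : ℕ} (α : Fin 9 → Fin n) : Finset (Fin n) := (Finset.univ.image α)ᶜ

theorem mem_Sm {n : ℕ} {α : Fin 9 → Fin n} {i : Fin n} : i ∈ Sm α ↔ i ∉ Set.range α := by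
  unfold Sm
  rw [Finset.mem_compl, Finset.mem_image]
  simp

theorem sum_Sm {n : ℕ} {α : Fin 9 → Fin n} (hα : Function.Injective α) (f : Fin n → ℕ) :
    ∑ i, f i = ∑ s, f (α s) + ∑ i ∈ Sm α, f i := by
  unfold Sm
  rw [← Finset.sum_add_sum_compl (Finset.univ.image α) f, Finset.sum_image (fun a _ b _ h => hα h)]

end Pool.MP_70e04f_ag.Strip
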