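import Pool.Agent.Lib_MP_70e04f_thin.TEffA
import Pool.Agent.Lib_MP_70e04f_thin.TEffB

/-!
# Piece TEFF: effectivity in characteristic zero and in large characteristic
-/

set_option autoImplicit false

namespace Pool.MP_70e04f_ag.Strip

open MvPolynomial

theorem TEff_gp {n N : ℕ} {a : Fin n → ℕ} {S : Type*} [CommRing S] (p : Fin n → Fin 2 → S)
    (f : ↥(tri N) → (Σ i : Fin n, ↥(tri (a i))))
    (h : ((condMat N a p).submatrix f id).det ≠ 0) : ((Bz n N a).submatrix f id).det ≠ 0 := by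
  intro h0
  apply h
  rw [← minor_map p f, h0, map_zero]

/-- PROOF. If the class is not effective at `gp n ℓ` then (`no_curve_iff`, `minor_map`) a maximal
minor of `Bz` is a nonzero polynomial; it does not vanish at some complex configuration
(`exists_eval_ne`), where the class is not effective. -/
theorem Eff0.effL {n : ℕ} {e : ℕ} {a : Fin n → ℕ} (h : Eff0 e a) (ℓ : ℕ) [Fact ℓ.Prime] :
    EffL n ℓ e a := by
  by_contra hcon
  obtain ⟨f, hf⟩ := (no_curve_iff e a (gp n ℓ)).1 hcon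
  obtain ⟨x, hx⟩ := exists_eval_ne (TEff_gp _ f hf)
  have h1 := minor_map (fun (i : Fin n) (c : Fin 2) => x (i, c)) f
  exact (no_curve_iff e a (fun (i : Fin n) (c : Fin 2) => x (i, c))).2 ⟨f, by
    rw [← h1]
    exact hx⟩ (h _)

/-- PROOF. Trivial if `Eff0 e a`. Otherwise there is a complex configuration where the class is not
effective, so some maximal minor of `Bz` is not the zero polynomial; `eval_gp_ne`. -/
theorem eff_large {n : ℕ} (e : ℕ) (a : Fin n → ℕ) :
    ∃ B : ℕ, ∀ ℓ : ℕ, ∀ [Fact ℓ.Prime], B < ℓ → EffL n ℓ e a → Eff0 e a := by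
  by_cases h : Eff0 e a
  · exact ⟨0, fun ℓ _ _ _ => h⟩
  · unfold Eff0 at h
    push Not at h
    obtain ⟨p, hp⟩ := h
    obtain ⟨f, hf⟩ := (no_curve_iff e a p).1 (by
      rintro ⟨g, h1, h2, h3⟩
      exact hp g h1 h2 h3)
    obtain ⟨B, hB⟩ := eval_gp_ne (TEff_gp _ f hf)
    refine ⟨B, fun ℓ _ hℓ heff => ?_⟩
    have h1 := hB ℓ hℓ
    rw [minor_map (gp n ℓ) f] at h1
    exact absurd heff ((no_curve_iff e a (gp n ℓ)).2 ⟨f, h1⟩)

/-- PROOF. `eff_large` for the finitely many classes (`choose`, and the maximum of the bounds over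
`Finset.range (E + 1) ×ˢ Fintype.piFinset (fun _ => Finset.range (E + 1))`, e.g. the sum of the
bounds). -/
theorem eff_large_all (n E : ℕ) :
    ∃ B : ℕ, ∀ ℓ : ℕ, ∀ [Fact ℓ.Prime], B < ℓ → ∀ (e : ℕ) (a : Fin n → ℕ), e ≤ E →
      (∀ i, a i ≤ E) → EffL n ℓ e a → Eff0 e a := by
  classical
  choose B hB using fun (x : ℕ × (Fin n → ℕ)) => eff_large (n := n) x.1 x.2
  refine ⟨∑ x ∈ Finset.range (E + 1) ×ˢ Fintype.piFinset (fun _ => Finset.range (E + 1)), B x,
    fun ℓ _ hℓ e a he ha h => ?_⟩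
  refine hB (e, a) ℓ (lt_of_le_of_lt ?_ hℓ) h
  refine Finset.single_le_sum (f := B) (fun _ _ => Nat.zero_le _) ?_
  rw [Finset.mem_product, Finset.mem_range, Fintype.mem_piFinset]
  exact ⟨Nat.lt_succ_of_le he, fun i => Finset.mem_range.2 (Nat.lt_succ_of_le (ha i))⟩

end Pool.MP_70e04f_ag.Strip
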