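import Pool.Agent.Lib_MP_70e04f_thin.TDefs

/-!
# Piece TEFFA: minors of an integral matrix

Let `Bz n N a` be the matrix `condMat N a` of the generic configuration with integral coefficients.
-/

set_option autoImplicit false

namespace Pool.MP_70e04f_ag.Strip

open MvPolynomial

/-- the matrix of the conditions at the generic configuration, over `ℤ` -/
noncomputable def Bz (n N : ℕ) (a : Fin n → ℕ) :
    Matrix (Σ i : Fin n, ↥(tri (a i))) ↥(tri N) (MvPolynomial (Fin n × Fin 2) ℤ) :=
  condMat N a (fun i c => X (i, c))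

/-- PROOF. `condMat_map` (see `SGExp_map` in `Lib_MP_70e04f_strip/SGExp.lean`). -/
theorem Bz_map {n N : ℕ} {a : Fin n → ℕ} {S : Type*} [CommRing S] (p : Fin n → Fin 2 → S) :
    (Bz n N a).map (eval₂Hom (Int.castRingHom S) (fun q : Fin n × Fin 2 => p q.1 q.2)) =
      condMat N a p := by
  unfold Bz
  rw [condMat_map]
  congr 1
  funext i c
  simp

/-- PROOF. `Bz_map`, `RingHom.map_det`, `Matrix.submatrix_map`. -/
theorem minor_map {n N : ℕ} {a : Fin n → ℕ} {S : Type*} [CommRing S] (p : Fin n → Fin 2 → S)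
    (f : ↥(tri N) → (Σ i : Fin n, ↥(tri (a i)))) :
    eval₂Hom (Int.castRingHom S) (fun q : Fin n × Fin 2 => p q.1 q.2)
      (((Bz n N a).submatrix f id).det) = ((condMat N a p).submatrix f id).det := by
  rw [RingHom.map_det, ← Bz_map]
  rfl

/-- A nonzero integral polynomial is not zero at some complex configuration.
PROOF. `map (Int.castRingHom ℂ) g ≠ 0` and `MvPolynomial.funext`. -/
theorem exists_eval_ne {σ : Type*} {g : MvPolynomial σ ℤ} (hg : g ≠ 0) :
    ∃ x : σ → ℂ, eval₂Hom (Int.castRingHom ℂ) x g ≠ 0 := by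
  by_contra hcon
  push Not at hcon
  apply hg
  have h2 : Function.Injective (Int.castRingHom ℂ) := Int.cast_injective
  apply map_injective (Int.castRingHom ℂ) h2
  rw [map_zero]
  apply MvPolynomial.funext
  intro x
  rw [eval_map, map_zero]
  exact hcon x

/-- A nonzero integral polynomial does not vanish at the generic configuration in large
characteristic.
PROOF. Let `c ≠ 0` be a coefficient of `g` and `B = |c|`. For `ℓ > B`,
`map (Int.castRingHom (ZMod ℓ)) g ≠ 0` (its coefficient `(c : ZMod ℓ)` is not zero), and evaluation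
at `gp` of an integral polynomial is the composition of `map (Int.castRingHom (ZMod ℓ))` with the map
`algebraMap (RR n ℓ) (KK n ℓ)`, which is injective (`gp` is the image of the variables). -/
theorem eval_gp_ne {n : ℕ} {g : MvPolynomial (Fin n × Fin 2) ℤ} (hg : g ≠ 0) :
    ∃ B : ℕ, ∀ ℓ : ℕ, ∀ [Fact ℓ.Prime], B < ℓ →
      eval₂Hom (Int.castRingHom (KK n ℓ)) (fun q : Fin n × Fin 2 => gp n ℓ q.1 q.2) g ≠ 0 := by
  obtain ⟨m, hm⟩ := MvPolynomial.ne_zero_iff.1 hg
  refine ⟨(coeff m g).natAbs, fun ℓ _ hl => ?_⟩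
  have h1 : map (Int.castRingHom (ZMod ℓ)) g ≠ 0 := by
    intro h0
    have h2 := congrArg (coeff m) h0
    rw [coeff_map, coeff_zero, eq_intCast, ZMod.intCast_zmod_eq_zero_iff_dvd] at h2
    have h3 : ℓ ∣ (coeff m g).natAbs := Int.natCast_dvd.1 h2
    have h4 := Nat.le_of_dvd (Int.natAbs_pos.2 hm) h3
    omega
  have h2 : eval₂Hom (Int.castRingHom (KK n ℓ)) (fun q : Fin n × Fin 2 => gp n ℓ q.1 q.2) =
      (algebraMap (RR n ℓ) (KK n ℓ)).comp (map (Int.castRingHom (ZMod ℓ))) := by
    apply MvPolynomial.ringHom_ext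
    · intro r
      simp
    · intro q
      simp [gp]
  rw [h2, RingHom.comp_apply]
  intro h3
  exact h1 ((IsFractionRing.injective (RR n ℓ) (KK n ℓ)) (by rw [h3, map_zero]))

end Pool.MP_70e04f_ag.Strip
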