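import Pool.Agent.Lib_MP_70e04f_thin.TDefs

/-!
# Piece TEFFC: classes of expected dimension zero are not effective
-/

set_option autoImplicit false

namespace Pool.MP_70e04f_ag.Strip

open MvPolynomial

/-- PROOF. Choose `p` with `eval p g ≠ 0` (`g` from `GExp`, `MvPolynomial.funext`). The dimension of
the space in `GExp` is `0` as `(e + 1) (e + 2) - ∑ a (a + 1) ≤ 0`, and a curve given by `Eff0` is a
nonzero element of it. -/
theorem GExp.not_eff0 {n : ℕ} {e : ℕ} {a : Fin n → ℕ} (h : GExp e a)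
    (hχ : (e + 1) * (e + 2) ≤ ∑ i, a i * (a i + 1)) : ¬ Eff0 e a := by
  intro heff
  obtain ⟨g, hg, h⟩ := h
  obtain ⟨x, hx⟩ : ∃ x : Fin n × Fin 2 → ℂ, MvPolynomial.eval x g ≠ 0 := by
    by_contra hcon
    push Not at hcon
    exact hg (MvPolynomial.funext fun x => by rw [hcon x, map_zero])
  have h1 := h (fun i c => x (i, c)) hx
  obtain ⟨f, hf, hfe, hfa⟩ := heff (fun i c => x (i, c))
  have h2 : (((e + 1) * (e + 2) : ℕ) : ℤ) ≤ ((∑ i, a i * (a i + 1) : ℕ) : ℤ) := by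
    exact_mod_cast hχ
  push_cast at h2
  rw [max_eq_left (by linarith)] at h1
  set V : Submodule ℂ (MvPolynomial (Fin 2) ℂ) := MvPolynomial.restrictTotalDegree (Fin 2) ℂ e ⊓
    ⨅ i : Fin n, Submodule.restrictScalars ℂ
      ((RingHom.ker (MvPolynomial.eval ((fun i c => x (i, c)) i)) :
        Ideal (MvPolynomial (Fin 2) ℂ)) ^ a i) with hV
  have hfin : Module.Finite ℂ ↥V := Submodule.finiteDimensional_inf_left _ _
  have h3 : Module.finrank ℂ ↥V = 0 := by
    have : (2 : ℤ) * (Module.finrank ℂ ↥V : ℕ) = 0 := h1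
    omega
  have h4 : V = ⊥ := Submodule.finrank_eq_zero.1 h3
  apply hf
  rw [← Submodule.mem_bot ℂ, ← h4, hV]
  refine Submodule.mem_inf.2 ⟨hfe, ?_⟩
  rw [Submodule.mem_iInf]
  intro i
  exact mem_Iz.1 hfa i

end Pool.MP_70e04f_ag.Strip
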