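import Pool.Agent.Lib_MP_70e04f_thin.TDefs

/-!
# Piece TFACTB: two multiplicities of a curve
-/

set_option autoImplicit false

namespace Pool.MP_70e04f_ag.Strip

open MvPolynomial

theorem TFactB_line {k : Type*} [Field k] (q : Fin 2 → Fin 2 → k) :
    ∃ G : A2 k, G ≠ 0 ∧ G.totalDegree ≤ 1 ∧ ∀ s, G ∈ mp (q s) := by
  have h10 : Module.finrank k ↥(Pt k 1) = 3 := by
    have := two_finrank_Pt (k := k) 1
    omega
  let f : ↥(Pt k 1) →ₗ[k] (Fin 2 → k) :=
    (LinearMap.pi fun s => (MvPolynomial.aeval (q s)).toLinearMap).comp (Pt k 1).subtype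
  have hlt : Module.finrank k (Fin 2 → k) < Module.finrank k ↥(Pt k 1) := by
    rw [h10, Module.finrank_fin_fun]
    norm_num
  have hker := LinearMap.ker_ne_bot_of_finrank_lt (f := f) hlt
  obtain ⟨Γ, hΓ, hne⟩ := Submodule.exists_mem_ne_zero_of_ne_bot hker
  refine ⟨Γ.1, fun h => hne (Subtype.ext h), mem_Pt.1 Γ.2, fun s => ?_⟩
  have h1 := congrFun (LinearMap.mem_ker.1 hΓ) s
  rw [mem_mp]
  exact h1

/-- Two multiplicities.
PROOF. `Pt k 1` has dimension `3` (`two_finrank_Pt`), so there is `G ≠ 0`, `deg G ≤ 1`, vanishing at `p i` and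
`p j`. `F` does not divide `G` (degrees), so by `mulbez` with `β = 1` at `i` and `j`, `0` elsewhere,
`mu (p i) F + mu (p j) F ≤ deg F * deg G ≤ deg F`. -/
theorem pair_le {k : Type*} [Field k] {n : ℕ} {p : Fin n → Fin 2 → k}
    (hp : Function.Injective p) {F : A2 k} (hF : Irreducible F) (h2 : 2 ≤ F.totalDegree)
    {i j : Fin n} (hij : i ≠ j) : mu (p i) F + mu (p j) F ≤ F.totalDegree := by
  classical
  obtain ⟨G, hG, hGd, hGm⟩ := TFactB_line (k := k) ![p i, p j]
  have hGi : G ∈ mp (p i) := hGm 0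
  have hGj : G ∈ mp (p j) := hGm 1
  have hdvd : ¬ F ∣ G := by
    rintro ⟨h, hh⟩
    have hh0 : h ≠ 0 := by
      rintro rfl
      rw [mul_zero] at hh
      exact hG hh
    have := totalDegree_mul_of_isDomain hF.ne_zero hh0
    rw [← hh] at this
    omega
  have h := mulbez hp hF hdvd (fun s => if s = i ∨ s = j then 1 else 0)
    (Ideal.mem_sup_left (mem_Iz.2 fun s => by
      by_cases hs : s = i ∨ s = j
      · rw [if_pos hs, pow_one]
        rcases hs with rfl | rfl
        · exact hGi
        · exact hGj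
      · rw [if_neg hs, pow_zero, Ideal.one_eq_top]
        exact Submodule.mem_top (R := A2 k)))
  have h1 : ∑ s, mu (p s) F * (if s = i ∨ s = j then 1 else 0) = mu (p i) F + mu (p j) F := by
    rw [← Finset.sum_pair (f := fun s => mu (p s) F) hij]
    symm
    rw [← Finset.sum_subset (Finset.subset_univ {i, j})]
    · refine Finset.sum_congr rfl fun s hs => ?_
      rw [Finset.mem_insert, Finset.mem_singleton] at hs
      rw [if_pos hs, mul_one]
    · intro s _ hs
      rw [Finset.mem_insert, Finset.mem_singleton] at hs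
      rw [if_neg hs, mul_zero]
  rw [h1] at h
  calc _ ≤ F.totalDegree * G.totalDegree := h
    _ ≤ F.totalDegree * 1 := Nat.mul_le_mul_left _ hGd
    _ = _ := mul_one _

end Pool.MP_70e04f_ag.Strip
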