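import Pool.Agent.Lib_MP_70e04f_thin.TDefs

/-!
# Piece TFACTC: components with nonpositive intersection
-/

set_option autoImplicit false

namespace Pool.MP_70e04f_ag.Strip

open MvPolynomial

/-- A class with negative intersection has a component with nonpositive intersection.
PROOF. Let `D * e' ≤ ∑ M i * a' i`, `G ≠ 0` in `Pt k e'` and `Iz p a'`, `a' i0 ≥ 1`. `dotp D M p G ≤ 0` (the
degree of `G` is `≤ e'` and `mu (p i) G ≥ a' i` by `mem_iff_le_mu`), `deg G ≥ 1` since `G (p i0) = 0`. If all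
irreducible `F` of degree `≤ e'` had `1 ≤ dotp` then `1 ≤ dotp D M p G` by `dotp_pos`. -/
theorem exists_component {k : Type*} [Field k] {n : ℕ} (D : ℕ) (M : Fin n → ℕ)
    (p : Fin n → Fin 2 → k) (e' : ℕ) (a' : Fin n → ℕ) (hNF : D * e' ≤ ∑ i, M i * a' i)
    {G : A2 k} (hG : G ≠ 0) (hGe : G ∈ Pt k e') (hGa : G ∈ Iz p a') (i0 : Fin n)
    (hi0 : 1 ≤ a' i0) :
    ∃ F : A2 k, Irreducible F ∧ F.totalDegree ≤ e' ∧ dotp D M p F ≤ 0 := by
  by_contra hcon
  push Not at hcon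
  have hdeg : G.totalDegree ≤ e' := mem_Pt.1 hGe
  have hmu : ∀ i, a' i ≤ mu (p i) G := fun i => (mem_iff_le_mu hG (a' i)).1 (mem_Iz.1 hGa i)
  have h1 : 1 ≤ G.totalDegree := by
    have h2 := hmu i0
    have h3 := mu_le_deg (q := p i0) hG
    omega
  have h2 := dotp_pos D M p e' (fun F hF hd => by have := hcon F hF hd; omega) hG hdeg h1
  unfold dotp at h2
  have h3 : (D : ℤ) * G.totalDegree ≤ D * e' :=
    mul_le_mul_of_nonneg_left (by exact_mod_cast hdeg) (by positivity)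
  have h4 : ((D : ℤ) * e') ≤ ∑ i, (M i : ℤ) * a' i := by exact_mod_cast hNF
  have h5 : ∑ i, (M i : ℤ) * a' i ≤ ∑ i, (M i : ℤ) * mu (p i) G :=
    Finset.sum_le_sum fun i _ =>
      mul_le_mul_of_nonneg_left (by exact_mod_cast hmu i) (by positivity)
  linarith

end Pool.MP_70e04f_ag.Strip
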