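import Pool.Agent.Lib_MP_70e04f_thin.TDefs

/-!
# Piece TFACTS: the nine points
-/

set_option autoImplicit false

namespace Pool.MP_70e04f_ag.Strip

open MvPolynomial

/-- PROOF. See `pos` in `Lib_MP_70e04f_strip/SPos.lean`: let `Γ` be the cubic of `exists_cubic`. If
`Γ ∣ F` the first alternative (`spos_cubic` with `X = 0`), otherwise `nine`. -/
theorem nine_or {n ℓ : ℕ} [Fact ℓ.Prime] (hℓ : 3 < ℓ) (D : ℕ) (M : Fin n → ℕ)
    (α : Fin 9 → Fin n) (hα : Function.Injective α) (hsq : ∑ i, M i ^ 2 < D ^ 2)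
    {F : A2 (KK n ℓ)} (hF : Irreducible F) (hdeg : F.totalDegree < ℓ) :
    1 ≤ dotp D M (gp n ℓ) F ∨ ∑ s, mu (gp n ℓ (α s)) F + 1 ≤ 3 * F.totalDegree := by
  obtain ⟨Γ, hΓ, hd3, hΓ1, hΓ0⟩ := exists_cubic hℓ α hα
  by_cases hdvd : Γ ∣ F
  · left
    obtain ⟨h, hh⟩ := hdvd
    have hu : IsUnit h := (hF.isUnit_or_isUnit hh).resolve_left hΓ.not_isUnit
    obtain ⟨c, hc, hc'⟩ := MvPolynomial.isUnit_iff_eq_C_of_isReduced.1 hu
    have hc0 : c ≠ 0 := hc.ne_zero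
    have hh0 : h ≠ 0 := hu.ne_zero
    have hdF : F.totalDegree = 3 := by
      rw [hh, totalDegree_mul_of_isDomain hΓ.ne_zero hh0, hd3, hc', totalDegree_C]
    have hmu : ∀ i, mu (gp n ℓ i) F = mu (gp n ℓ i) Γ := by
      intro i
      rw [hh, mu_mul hΓ.ne_zero hh0, hc', mu_C hc0, add_zero]
    have hsum : ∑ s, (M (α s) : ℤ) = ∑ i, (M i : ℤ) * mu (gp n ℓ i) F := by
      refine Fintype.sum_of_injective α hα _ _ ?_ ?_
      · intro i hi
        rw [hmu, hΓ0 i hi]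
        simp
      · intro s
        rw [hmu, hΓ1 s]
        simp
    unfold dotp
    rw [← hsum, hdF]
    have := spos_cubic (X := 0) M α hα (by simpa using hsq)
    push_cast
    linarith
  · right
    exact nine α hα hΓ hd3 hΓ1 hΓ0 hF hdeg hdvd

end Pool.MP_70e04f_ag.Strip
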