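import Pool.Agent.Lib_MP_70e04f_thin.TDefs

/-!
# Piece TIND: independence from positivity
-/

set_option autoImplicit false

namespace Pool.MP_70e04f_ag.Strip

open MvPolynomial

/-- PROOF. As `ind_gen` (`Lib_MP_70e04f_strip/SInd.lean`), with `hpos` instead of `pos`: the prime `ℓ`
larger than `E + 4` and than the bound of `hpos E`. -/
theorem ind_of_pos {n : ℕ} (hn : 0 < n) (d : ℕ) (m : Fin n → ℕ)
    (hsq : ∑ i, (m i + 1) ^ 2 < (d + 3) ^ 2)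
    (hpos : ∀ E : ℕ, ∃ B : ℕ, ∀ ℓ : ℕ, ∀ [Fact ℓ.Prime], B < ℓ → ∀ F : A2 (KK n ℓ),
      Irreducible F → F.totalDegree ≤ E → 1 ≤ dotp (d + 3) (fun i => m i + 1) (gp n ℓ) F) :
    ∃ (k : Type) (_ : Field k) (_ : Infinite k) (p : Fin n → Fin 2 → k),
      Function.Injective p ∧ Ind d (Iz p m) := by
  obtain ⟨E, hE⟩ := surf_van n (d + 3) (fun i => m i + 1) (fun i => by omega) hsq
  obtain ⟨B, hB⟩ := hpos E
  obtain ⟨ℓ, hℓ, hprime⟩ := Nat.exists_infinite_primes (E + 4 + (B + 1))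
  have : Fact ℓ.Prime := ⟨hprime⟩
  have : CharP (KK n ℓ) ℓ := charP_KK n ℓ
  have hinf : Infinite (KK n ℓ) := infinite_KK ℓ hn
  obtain ⟨J, hJ⟩ := hE (KK n ℓ) (gp n ℓ) (gp_inj n ℓ) (hB ℓ (by omega))
  have hJe : J ≤ ℓ ^ J := (Nat.lt_pow_self hprime.one_lt).le
  have h1 := hJ (ℓ ^ J) hJe
  have h2 := trace_ind ℓ J (gp n ℓ) d m h1
  refine ⟨KK n ℓ, inferInstance, hinf, _, ?_, h2⟩
  intro i j hij
  apply gp_inj n ℓ
  funext c
  have h3 := congrFun hij c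
  exact iterateFrobenius_inj (KK n ℓ) ℓ J h3

end Pool.MP_70e04f_ag.Strip
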