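import Pool.Agent.Lib_MP_70e04f_thin.TDefs

/-!
# Piece TINDB: emptiness from positivity
-/

set_option autoImplicit false

namespace Pool.MP_70e04f_ag.Strip

open MvPolynomial

/-- PROOF. As `empty_gen` (`Lib_MP_70e04f_strip/SIndA.lean`), with `hpos` instead of `pos`. (`d = 0` is
trivial: a nonzero constant is not in `Iz p m`.) -/
theorem empty_of_pos {n : ℕ} (hn : 0 < n) (d : ℕ) (m : Fin n → ℕ) (h1 : ∀ i, 1 ≤ m i)
    (hpos : ∃ B : ℕ, ∀ ℓ : ℕ, ∀ [Fact ℓ.Prime], B < ℓ → ∀ F : A2 (KK n ℓ),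
      Irreducible F → F.totalDegree ≤ d →
      1 ≤ dotp (∑ i, m i ^ 2) (fun i => d * m i) (gp n ℓ) F) :
    ∃ (k : Type) (_ : Field k) (_ : Infinite k) (p : Fin n → Fin 2 → k),
      Function.Injective p ∧ Pt k d ⊓ sp (Iz p m) = ⊥ := by
  obtain ⟨B, hB⟩ := hpos
  obtain ⟨ℓ, hℓ, hℓp⟩ := Nat.exists_infinite_primes (B + 1)
  have : Fact ℓ.Prime := ⟨hℓp⟩
  set S : ℕ := ∑ i, m i ^ 2 with hS
  refine ⟨KK n ℓ, inferInstance, infinite_KK ℓ hn, gp n ℓ, gp_inj n ℓ, ?_⟩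
  rw [eq_bot_iff]
  rintro G ⟨hG1, hG2⟩
  rw [Submodule.mem_bot]
  by_contra hG0
  have hdeg : G.totalDegree ≤ d := mem_Pt.1 hG1
  have hmu : ∀ i, m i ≤ mu (gp n ℓ i) G := fun i =>
    (mem_iff_le_mu hG0 (m i)).1 (mem_Iz.1 hG2 i)
  by_cases h2 : 1 ≤ G.totalDegree
  · have h3 := dotp_pos S (fun i => d * m i) (gp n ℓ) d (hB ℓ (by omega)) hG0 hdeg h2
    unfold dotp at h3
    have h4 : (d : ℤ) * S ≤ ∑ i, ((d * m i : ℕ) : ℤ) * (mu (gp n ℓ i) G : ℤ) := by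
      have e1 : (d : ℤ) * S = ∑ i, ((d * m i : ℕ) : ℤ) * (m i : ℤ) := by
        rw [hS]
        push_cast
        rw [Finset.mul_sum]
        exact Finset.sum_congr rfl fun i _ => by ring
      rw [e1]
      refine Finset.sum_le_sum fun i _ => ?_
      exact mul_le_mul_of_nonneg_left (by exact_mod_cast hmu i) (by positivity)
    have h5 : (S : ℤ) * G.totalDegree ≤ S * d :=
      mul_le_mul_of_nonneg_left (by exact_mod_cast hdeg) (by positivity)
    nlinarith [h3, h4, h5]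
  · have h3 : G.totalDegree = 0 := by omega
    rw [totalDegree_eq_zero_iff_eq_C] at h3
    have h4 : coeff 0 G ≠ 0 := by
      intro h0
      rw [h0, C_0] at h3
      exact hG0 h3
    have h5 := hmu ⟨0, hn⟩
    rw [h3, mu_C h4] at h5
    have := h1 ⟨0, hn⟩
    omega

end Pool.MP_70e04f_ag.Strip
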