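import Pool.Agent.Lib_MP_70e04f_thin.TGen
import Pool.Agent.Lib_MP_70e04f_thin.TInd
import Pool.Agent.Lib_MP_70e04f_thin.TIndB

/-!
# Piece TFINAL: the thin strip, assembly
-/

set_option autoImplicit false

namespace Pool.MP_70e04f_ag.Strip

open MvPolynomial

theorem TFinal_sum {n r : ℕ} (S : Finset (Fin n)) (ι : Fin r → Fin n)
    (hι : Function.Injective ι) (hr : Set.range ι = ↑S) (β : Fin 9 → Fin n) (β' : Fin 9 → Fin r)
    (h : ∀ j, ι (β' j) = β j) (f : Fin n → ℕ) :
    ∑ a ∈ Sm β', f (ι a) = ∑ i ∈ S.filter (fun i => ∀ j, i ≠ β j), f i := by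
  have h1 : S.filter (fun i => ∀ j, i ≠ β j) = (Sm β').map ⟨ι, hι⟩ := by
    ext i
    rw [Finset.mem_filter, Finset.mem_map, ← Finset.mem_coe, ← hr]
    constructor
    · rintro ⟨⟨a, rfl⟩, hb⟩
      refine ⟨a, ?_, rfl⟩
      rw [mem_Sm]
      rintro ⟨j, rfl⟩
      exact hb j (h j)
    · rintro ⟨a, ha, rfl⟩
      refine ⟨⟨a, rfl⟩, ?_⟩
      intro j hj
      rw [mem_Sm] at ha
      apply ha
      refine ⟨j, hι ?_⟩
      rw [h]
      exact hj.symm
  rw [h1, Finset.sum_map]
  rfl

/-- The thin strip theorem. (The small points are the ones outside of the first nine of the ten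
points `α`.)
PROOF. As `gen_strip` (`Lib_MP_70e04f_strip/SFinal.lean`) with `exists_enum`, `sum_enum`, and `pos_all`,
`ind_of_pos`, resp. `pos_neg`, `empty_of_pos`. -/
theorem gen_thin (n d D N : ℕ) (mult : Fin n → ℕ) (α : Fin 10 → Fin n)
    (hα : Function.Injective α) (hanti : Antitone (fun j => mult (α j)))
    (h2 : 2 ≤ mult (α 9)) (hother : ∀ i, i ∉ Set.range α → mult i ≤ mult (α 9))
    (hstd : mult (α 0) + mult (α 1) + mult (α 2) ≤ d) (hN : 0 < N)
    (hbig : (∑ i with 2 ≤ mult i, (mult i + 1) ^ 2 + N = (d + 3) ^ 2 ∧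
        ((mult (α 9) + 1) ^ 2 < N ∨
          100000 * (mult (α 9) + 1) ^ 4 ≤
            N * ∑ i with 2 ≤ mult i ∧ ∀ j : Fin 9, i ≠ α j.castSucc, (mult i + 1) ^ 2 ∨
          1000000 * (mult (α 9) + 1) ^ 5 ≤ N ^ 2 * (d + 3))) ∨
      (∑ i, mult i ^ 2 = d ^ 2 + N ∧
        (mult (α 9) ^ 2 ≤ N ∨
          100000 * mult (α 9) ^ 4 ≤
            N * ∑ i with ∀ j : Fin 9, i ≠ α j.castSucc, mult i ^ 2 ∨
          1000000 * mult (α 9) ^ 5 ≤ N ^ 2 * d)))
    (hD : D = d ∨ D ≤ d ∧ (d + 1) * (d + 2) ≤ ∑ i, mult i * (mult i + 1)) : GExp D mult := by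
  classical
  have h9 : ∀ j, mult (α 9) ≤ mult (α j) := fun j => hanti (Fin.le_last j)
  have hn : 0 < n := lt_of_le_of_lt (Nat.zero_le _) (α 0).2
  -- facts on the enumerated family
  have hfam : ∀ {r : ℕ} (ι : Fin r → Fin n) (α' : Fin 10 → Fin r), Function.Injective ι →
      (∀ j, ι (α' j) = α j) → Antitone (fun s : Fin 9 => mult (ι (α' s.castSucc))) ∧
      mult (α 9) ≤ mult (ι (α' (8 : Fin 9).castSucc)) ∧
      (∀ i, i ∉ Set.range (fun s : Fin 9 => α' s.castSucc) → mult (ι i) ≤ mult (α 9)) ∧
      mult (ι (α' (0 : Fin 9).castSucc)) + mult (ι (α' (1 : Fin 9).castSucc)) +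
        mult (ι (α' (2 : Fin 9).castSucc)) ≤ d := by
    intro r ι α' hι hια
    refine ⟨?_, ?_, ?_, ?_⟩
    · intro a b hab
      simp only [hια]
      exact hanti (Fin.castSucc_le_castSucc_iff.2 hab)
    · rw [hια]
      exact h9 _
    · intro i hi
      by_cases h : ι i ∈ Set.range α
      · obtain ⟨j, hj⟩ := h
        rw [← hj]
        rcases Fin.eq_castSucc_or_eq_last j with ⟨j', rfl⟩ | rfl
        · exfalso
          apply hi
          refine ⟨j', hι ?_⟩
          simp only
          rw [hια, hj]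
        · exact le_refl _
      · exact hother _ h
    · simp only [hια]
      exact hstd
  have key : GExp d mult := by
    rcases hbig with ⟨hb, ht⟩ | ⟨hb, ht⟩
    · obtain ⟨ι, α', hι, hr, hια, hα'⟩ := exists_enum (Finset.univ.filter (fun i => 2 ≤ mult i)) α hα
        (fun j => by
          rw [Finset.mem_filter]
          exact ⟨Finset.mem_univ _, h2.trans (h9 j)⟩)
      obtain ⟨f1, f2, f3, f4⟩ := hfam ι α' hι hια
      have hs := sum_enum _ ι hι hr (fun i => (mult i + 1) ^ 2)
      have hs2 := TFinal_sum _ ι hι hr (fun j : Fin 9 => α j.castSucc)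
        (fun j : Fin 9 => α' j.castSucc) (fun j => hια _) (fun i => (mult i + 1) ^ 2)
      rw [Finset.filter_filter] at hs2
      obtain ⟨k, _, _, p, hp, hind⟩ := ind_of_pos (α' 0).pos d (fun a => mult (ι a)) (by rw [hs]; omega)
        (pos_all (d + 3) (mult (α 9) + 1) N (fun a => mult (ι a) + 1)
          (fun s : Fin 9 => α' s.castSucc) (hα'.comp (Fin.castSucc_injective _))
          (fun a b hab => Nat.add_le_add_right (f1 hab) 1) (by omega) (Nat.add_le_add_right f2 1)
          (fun i hi => Nat.add_le_add_right (f3 i hi) 1) (by omega)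
          (by rw [hs]; exact hb) hN (by rw [hs2]; exact ht))
      obtain ⟨p2, hp2⟩ := (EXP.of_ind hp hind).extend ι hι
        (fun i hi => by
          by_contra hcon
          apply hi
          have : i ∈ (↑(Finset.univ.filter (fun i => 2 ≤ mult i)) : Set (Fin n)) := by
            rw [Finset.mem_coe, Finset.mem_filter]
            exact ⟨Finset.mem_univ _, by omega⟩
          rw [← hr] at this
          exact this)
      exact gexp_of_good d mult p2 hp2.good
    · obtain ⟨ι, α', hι, hr, hια, hα'⟩ := exists_enum (Finset.univ.filter (fun i => 1 ≤ mult i)) α hα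
        (fun j => by
          rw [Finset.mem_filter]
          exact ⟨Finset.mem_univ _, by have := h9 j; omega⟩)
      obtain ⟨f1, f2, f3, f4⟩ := hfam ι α' hι hια
      have hs := sum_enum _ ι hι hr (fun i => mult i ^ 2)
      have hs' : ∑ i ∈ Finset.univ.filter (fun i => 1 ≤ mult i), mult i ^ 2 = ∑ i, mult i ^ 2 := by
        apply Finset.sum_subset (Finset.subset_univ _)
        intro i _ hi
        rw [Finset.mem_filter] at hi
        have : mult i = 0 := by
          by_contra h0
          exact hi ⟨Finset.mem_univ _, by omega⟩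
        rw [this]; rfl
      have hs2 := TFinal_sum _ ι hι hr (fun j : Fin 9 => α j.castSucc)
        (fun j : Fin 9 => α' j.castSucc) (fun j => hια _) (fun i => mult i ^ 2)
      have hs2' : ∑ i ∈ (Finset.univ.filter (fun i => 1 ≤ mult i)).filter
          (fun i => ∀ j : Fin 9, i ≠ α j.castSucc), mult i ^ 2 =
          ∑ i with ∀ j : Fin 9, i ≠ α j.castSucc, mult i ^ 2 := by
        apply Finset.sum_subset
        · intro i hi
          rw [Finset.mem_filter] at hi ⊢
          exact ⟨Finset.mem_univ _, hi.2⟩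
        · intro i hi1 hi
          rw [Finset.mem_filter] at hi1
          rw [Finset.mem_filter, Finset.mem_filter] at hi
          have : mult i = 0 := by
            by_contra h0
            exact hi ⟨⟨Finset.mem_univ _, by omega⟩, hi1.2⟩
          rw [this]; rfl
      obtain ⟨k, _, _, p, hp, hbot⟩ := empty_of_pos (α' 0).pos d (fun a => mult (ι a))
        (fun a => by
          have : ι a ∈ (↑(Finset.univ.filter (fun i => 1 ≤ mult i)) : Set (Fin n)) := by
            rw [← hr]; exact ⟨a, rfl⟩
          rw [Finset.mem_coe, Finset.mem_filter] at this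
          exact this.2)
        (pos_neg d (mult (α 9)) N (fun a => mult (ι a)) (fun s : Fin 9 => α' s.castSucc)
          (hα'.comp (Fin.castSucc_injective _)) f1 (by omega) f2 f3 f4
          (by rw [hs, hs']; exact hb) hN (by rw [hs2, hs2']; exact ht) d)
      obtain ⟨p2, hp2⟩ := (EXP.of_bot hbot).extend ι hι
        (fun i hi => by
          by_contra hcon
          apply hi
          have : i ∈ (↑(Finset.univ.filter (fun i => 1 ≤ mult i)) : Set (Fin n)) := by
            rw [Finset.mem_coe, Finset.mem_filter]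
            exact ⟨Finset.mem_univ _, by omega⟩
          rw [← hr] at this
          exact this)
      exact gexp_of_good d mult p2 hp2.good
  rcases hD with rfl | ⟨h3, h4⟩
  · exact key
  · exact key.le h3 h4

end Pool.MP_70e04f_ag.Strip
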