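import Pool.Agent.Lib_MP_70e04f_thin.TPos

/-!
# Piece TGEN: positivity in the two cases
-/

set_option autoImplicit false

namespace Pool.MP_70e04f_ag.Strip

open MvPolynomial

/-- PROOF. If `X ^ 2 < ν` take `B = max E 3` and apply `pos`; otherwise `pos_thin`. -/
theorem pos_all {n : ℕ} (D X ν : ℕ) (M : Fin n → ℕ) (α : Fin 9 → Fin n)
    (hα : Function.Injective α) (hanti : Antitone (fun s => M (α s))) (hX : 1 ≤ X)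
    (hX8 : X ≤ M (α 8)) (hother : ∀ i, i ∉ Set.range α → M i ≤ X)
    (hstd : M (α 0) + M (α 1) + M (α 2) ≤ D) (hν : ∑ i, M i ^ 2 + ν = D ^ 2) (hν0 : 0 < ν)
    (hthin : X ^ 2 < ν ∨ 100000 * X ^ 4 ≤ ν * ∑ i ∈ Sm α, M i ^ 2 ∨
      1000000 * X ^ 5 ≤ ν ^ 2 * D) (E : ℕ) :
    ∃ B : ℕ, ∀ ℓ : ℕ, ∀ [Fact ℓ.Prime], B < ℓ → ∀ F : A2 (KK n ℓ), Irreducible F →
      F.totalDegree ≤ E → 1 ≤ dotp D M (gp n ℓ) F := by
  by_cases h : X ^ 2 < ν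
  · refine ⟨E + 3, fun ℓ _ hℓ F hF hE => ?_⟩
    exact pos (by omega) D X M α hα hanti hX hX8 hother hstd (by omega) hF (by omega)
  · exact pos_thin D X ν M α hα hanti hX hX8 hother hstd hν hν0 (not_lt.1 h)
      (hthin.resolve_left h) E

/-- The class `(∑ m i ^ 2; d * m i)`, with `X = d * m (α 9)`.
PROOF. Let `S = ∑ m i ^ 2 = d ^ 2 + N`, `M i = d * m i`, `X = d * x`, `ν = S * N`: `∑ M i ^ 2 + ν =
d ^ 2 S + S N = S ^ 2`. `N ≥ x ^ 2` gives `ν = S N > d ^ 2 x ^ 2` (`S > d ^ 2`, `x ≥ 1`).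
`100000 x ^ 4 ≤ N * ∑ m i ^ 2` (over `Sm α`) gives `100000 d ^ 4 x ^ 4 ≤ d ^ 4 N ∑ m i ^ 2 ≤ ν ∑ M i ^ 2`.
`1000000 x ^ 5 ≤ N ^ 2 d` gives `1000000 d ^ 5 x ^ 5 ≤ d ^ 6 N ^ 2 ≤ S ^ 3 N ^ 2 = ν ^ 2 S`. Then
`pos_all`. -/
theorem pos_neg {n : ℕ} (d x N : ℕ) (m : Fin n → ℕ) (α : Fin 9 → Fin n)
    (hα : Function.Injective α) (hanti : Antitone (fun s => m (α s))) (hx : 1 ≤ x)
    (hx8 : x ≤ m (α 8)) (hother : ∀ i, i ∉ Set.range α → m i ≤ x)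
    (hstd : m (α 0) + m (α 1) + m (α 2) ≤ d) (hN : ∑ i, m i ^ 2 = d ^ 2 + N) (hN0 : 0 < N)
    (hthin : x ^ 2 ≤ N ∨ 100000 * x ^ 4 ≤ N * ∑ i ∈ Sm α, m i ^ 2 ∨
      1000000 * x ^ 5 ≤ N ^ 2 * d) (E : ℕ) :
    ∃ B : ℕ, ∀ ℓ : ℕ, ∀ [Fact ℓ.Prime], B < ℓ → ∀ F : A2 (KK n ℓ), Irreducible F →
      F.totalDegree ≤ E → 1 ≤ dotp (∑ i, m i ^ 2) (fun i => d * m i) (gp n ℓ) F := by
  have hd : 1 ≤ d := by
    have h0 : m (α 8) ≤ m (α 0) := hanti (Fin.zero_le 8)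
    omega
  have hM : ∀ T : Finset (Fin n), ∑ i ∈ T, (d * m i) ^ 2 = d ^ 2 * ∑ i ∈ T, m i ^ 2 := by
    intro T
    rw [Finset.mul_sum]
    exact Finset.sum_congr rfl fun i _ => by ring
  have hSS : d ^ 2 ≤ ∑ i, m i ^ 2 := by omega
  refine pos_all (∑ i, m i ^ 2) (d * x) ((∑ i, m i ^ 2) * N) (fun i => d * m i) α hα
    (fun a b hab => Nat.mul_le_mul_left d (hanti hab)) (Nat.mul_pos hd hx)
    (Nat.mul_le_mul_left d hx8) (fun i hi => Nat.mul_le_mul_left d (hother i hi)) ?_ ?_ ?_ ?_ E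
  · calc d * m (α 0) + d * m (α 1) + d * m (α 2) = d * (m (α 0) + m (α 1) + m (α 2)) := by ring
      _ ≤ d * d := Nat.mul_le_mul_left d hstd
      _ = d ^ 2 := by ring
      _ ≤ _ := hSS
  · rw [hM, hN]
    ring
  · exact Nat.mul_pos (by have : 1 ≤ d ^ 2 := Nat.one_le_pow _ _ hd; omega) hN0
  · rcases hthin with h | h | h
    · left
      have h1 : 1 ≤ x ^ 2 := Nat.one_le_pow _ _ hx
      calc (d * x) ^ 2 = d ^ 2 * x ^ 2 := by ring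
        _ < (∑ i, m i ^ 2) * x ^ 2 := Nat.mul_lt_mul_of_pos_right (by omega) h1
        _ ≤ (∑ i, m i ^ 2) * N := Nat.mul_le_mul_left _ h
    · right; left
      rw [hM]
      calc 100000 * (d * x) ^ 4 = d ^ 4 * (100000 * x ^ 4) := by ring
        _ ≤ d ^ 4 * (N * ∑ i ∈ Sm α, m i ^ 2) := Nat.mul_le_mul_left _ h
        _ = d ^ 2 * N * (d ^ 2 * ∑ i ∈ Sm α, m i ^ 2) := by ring
        _ ≤ (∑ i, m i ^ 2) * N * (d ^ 2 * ∑ i ∈ Sm α, m i ^ 2) :=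
          Nat.mul_le_mul_right _ (Nat.mul_le_mul_right _ hSS)
    · right; right
      calc 1000000 * (d * x) ^ 5 = d ^ 5 * (1000000 * x ^ 5) := by ring
        _ ≤ d ^ 5 * (N ^ 2 * d) := Nat.mul_le_mul_left _ h
        _ = (d ^ 2) ^ 3 * N ^ 2 := by ring
        _ ≤ (∑ i, m i ^ 2) ^ 3 * N ^ 2 := Nat.mul_le_mul_right _ (Nat.pow_le_pow_left hSS 3)
        _ = ((∑ i, m i ^ 2) * N) ^ 2 * ∑ i, m i ^ 2 := by ring

end Pool.MP_70e04f_ag.Strip
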