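import Mathlib

/-!
# Piece TNUMB: a real inequality
-/

set_option autoImplicit false

namespace Pool.MP_70e04f_ag.Strip

private theorem TNumB_core (m : ℕ) (x t s : ℝ) (hm : 2 ≤ m) (hs1 : 1 ≤ s) (hsm : s ^ 2 ≤ m)
    (ht : 0 ≤ t) (h316 : 316 * x ≤ t) (hst : 316 * x ^ 2 ≤ s * t) (h1 : (m : ℝ) ≤ x + s) :
    s ≤ t ∧ 3110 * (m : ℝ) ^ 3 ≤ (t - s) ^ 2 := by
  rcases Nat.lt_or_ge m 4 with h4 | h4
  · rcases Nat.lt_or_ge m 3 with h3 | h3
    · have hm2 : m = 2 := by omega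
      subst hm2
      push_cast at hsm h1 ⊢
      have hs : s ≤ 1.4143 := by
        by_contra hcon
        push Not at hcon
        nlinarith
      have ht' : 185 ≤ t := by norm_num at hs; linarith
      norm_num at hs
      refine ⟨by linarith, ?_⟩
      have h5 : 183 ≤ t - s := by linarith
      nlinarith
    · have hm3 : m = 3 := by omega
      subst hm3
      push_cast at hsm h1 ⊢
      have hs : s ≤ 1.7321 := by
        by_contra hcon
        push Not at hcon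
        nlinarith
      have ht' : 400 ≤ t := by norm_num at hs; linarith
      norm_num at hs
      refine ⟨by linarith, ?_⟩
      have h5 : 398 ≤ t - s := by linarith
      nlinarith
  · have hm4 : (4 : ℝ) ≤ m := by exact_mod_cast h4
    have hm0 : (0 : ℝ) ≤ m := by linarith
    obtain ⟨r, hr⟩ : ∃ r : ℝ, r = Real.sqrt m := ⟨_, rfl⟩
    have hr0 : 0 ≤ r := hr ▸ Real.sqrt_nonneg _
    have hr2 : r ^ 2 = m := by rw [hr]; exact Real.sq_sqrt hm0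
    have hr' : 2 ≤ r := by
      by_contra hcon
      push Not at hcon
      nlinarith
    have hsr : s ≤ r := by
      rw [← hr2] at hsm
      exact le_of_sq_le_sq hsm hr0
    rw [← hr2] at h1
    have hx : r ^ 2 / 2 ≤ x := by nlinarith
    have hx2 : r ^ 4 / 4 ≤ x ^ 2 := by
      have h5 : 0 ≤ r ^ 2 / 2 := by positivity
      have h6 := mul_self_le_mul_self h5 hx
      nlinarith
    have h7 : 79 * r ^ 4 ≤ s * t := by linarith
    have h8 : 79 * r ^ 3 ≤ t := by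
      by_contra hcon
      push Not at hcon
      have h9 : s * t < s * (79 * r ^ 3) := mul_lt_mul_of_pos_left hcon (by linarith)
      have h10 : s * (79 * r ^ 3) ≤ r * (79 * r ^ 3) :=
        mul_le_mul_of_nonneg_right hsr (by positivity)
      have h11 : r * (79 * r ^ 3) = 79 * r ^ 4 := by ring
      linarith
    have h12 : r ≤ r ^ 3 := by
      have h13 : 1 * r ≤ r ^ 2 * r := mul_le_mul_of_nonneg_right (by nlinarith) hr0
      calc r = 1 * r := by ring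
        _ ≤ r ^ 2 * r := h13
        _ = r ^ 3 := by ring
    have h14 : 78 * r ^ 3 ≤ t - s := by linarith
    have h15 : 0 ≤ 78 * r ^ 3 := by positivity
    refine ⟨by linarith, ?_⟩
    have h16 := mul_self_le_mul_self h15 h14
    rw [← hr2]
    have h17 : 0 ≤ r ^ 6 := by positivity
    calc 3110 * (r ^ 2) ^ 3 = 3110 * r ^ 6 := by ring
      _ ≤ 6084 * r ^ 6 := by linarith
      _ = 78 * r ^ 3 * (78 * r ^ 3) := by ring
      _ ≤ (t - s) * (t - s) := h16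
      _ = (t - s) ^ 2 := by ring

/-- PROOF. Let `s = √q`, so `1 ≤ s`, `s ^ 2 ≤ m`, and `x = l X`, `t = l √S` (`t ^ 2 = l ^ 2 S`).
`hν1` and `hC` give `q t ^ 2 ≥ l ^ 4 ν S ≥ 100000 x ^ 4`, and `hC` with `hν2` gives
`S ≥ 100000 X ^ 2`, `t ^ 2 ≥ 100000 x ^ 2`. So `t ≥ 316 x` and `s t ≥ 316 x ^ 2`; `x ≥ m - s > 0`.
Claim: `(t - s) ^ 2 ≥ 3110 m ^ 3` and `t ≥ s` (and `h2` gives `√A ≥ t - s`).
If `m = 2`: `s ≤ √2 < 1.4143`, `x ≥ 0.5857`, `t ≥ 185`, `t - s ≥ 183`, `183 ^ 2 ≥ 3110 * 8`. If `m = 3`: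
`s ≤ √3 < 1.7321`, `x ≥ 1.2679`, `t ≥ 400`, `t - s ≥ 398`, `398 ^ 2 ≥ 3110 * 27`. If `m ≥ 4`, with
`r = √m ≥ 2`: `s ≤ r`, `x ≥ r ^ 2 - r ≥ r ^ 2 / 2`, `t ≥ 316 x ^ 2 / s ≥ 79 r ^ 3`,
`t - s ≥ 79 r ^ 3 - r ≥ 78 r ^ 3` and `78 ^ 2 ≥ 3110`. -/
theorem thin_real (m : ℕ) (l X ν S q A : ℝ) (hm : 2 ≤ m) (hl : 0 ≤ l) (hX : 0 < X) (hν : 0 < ν)
    (hS : 0 ≤ S) (hq1 : 1 ≤ q) (hqm : q ≤ m) (hA : 0 ≤ A) (hν1 : l ^ 2 * ν ≤ q)
    (hν2 : ν ≤ X ^ 2) (hC : 100000 * X ^ 4 ≤ ν * S) (h1 : (m : ℝ) ≤ l * X + Real.sqrt q)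
    (h2 : l * Real.sqrt S ≤ Real.sqrt A + Real.sqrt q) : 3110 * (m : ℝ) ^ 3 ≤ A := by
  have hq0 : 0 ≤ q := by linarith
  have hs2 : Real.sqrt q ^ 2 = q := Real.sq_sqrt hq0
  have hs1 : 1 ≤ Real.sqrt q := by
    rw [Real.one_le_sqrt]
    exact hq1
  have hT2 : Real.sqrt S ^ 2 = S := Real.sq_sqrt hS
  have ht0 : 0 ≤ l * Real.sqrt S := mul_nonneg hl (Real.sqrt_nonneg _)
  have ht2 : (l * Real.sqrt S) ^ 2 = l ^ 2 * S := by rw [mul_pow, hT2]
  have hl2 : 0 ≤ l ^ 2 := by positivity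
  -- S is large
  have hS1 : 100000 * X ^ 2 ≤ S := by
    have h3 : ν * S ≤ X ^ 2 * S := mul_le_mul_of_nonneg_right hν2 hS
    have h4 : X ^ 2 * (100000 * X ^ 2) ≤ X ^ 2 * S := by
      calc X ^ 2 * (100000 * X ^ 2) = 100000 * X ^ 4 := by ring
        _ ≤ X ^ 2 * S := hC.trans h3
    exact le_of_mul_le_mul_left h4 (by positivity)
  have h316 : 316 * (l * X) ≤ l * Real.sqrt S := by
    have h3 : (316 * (l * X)) ^ 2 ≤ (l * Real.sqrt S) ^ 2 := by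
      rw [ht2]
      calc (316 * (l * X)) ^ 2 = l ^ 2 * (99856 * X ^ 2) := by ring
        _ ≤ l ^ 2 * S := mul_le_mul_of_nonneg_left (by nlinarith [sq_nonneg X]) hl2
    exact le_of_sq_le_sq h3 ht0
  have hst : 316 * (l * X) ^ 2 ≤ Real.sqrt q * (l * Real.sqrt S) := by
    have h3 : (316 * (l * X) ^ 2) ^ 2 ≤ (Real.sqrt q * (l * Real.sqrt S)) ^ 2 := by
      rw [mul_pow (Real.sqrt q), hs2, ht2]
      have h4 : l ^ 4 * (100000 * X ^ 4) ≤ l ^ 4 * (ν * S) :=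
        mul_le_mul_of_nonneg_left hC (by positivity)
      have h5 : l ^ 2 * ν * (l ^ 2 * S) ≤ q * (l ^ 2 * S) :=
        mul_le_mul_of_nonneg_right hν1 (mul_nonneg hl2 hS)
      calc (316 * (l * X) ^ 2) ^ 2 = 99856 * (l ^ 4 * X ^ 4) := by ring
        _ ≤ 100000 * (l ^ 4 * X ^ 4) := by
            have : 0 ≤ l ^ 4 * X ^ 4 := by positivity
            linarith
        _ = l ^ 4 * (100000 * X ^ 4) := by ring
        _ ≤ l ^ 4 * (ν * S) := h4
        _ = l ^ 2 * ν * (l ^ 2 * S) := by ring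
        _ ≤ q * (l ^ 2 * S) := h5
    exact le_of_sq_le_sq h3 (mul_nonneg (by linarith) ht0)
  obtain ⟨h5, h6⟩ := TNumB_core m (l * X) (l * Real.sqrt S) (Real.sqrt q) hm hs1
    (by rw [hs2]; exact hqm) ht0 h316 hst h1
  have h7 : (l * Real.sqrt S - Real.sqrt q) ^ 2 ≤ Real.sqrt A ^ 2 :=
    pow_le_pow_left₀ (by linarith) (by linarith) 2
  rw [Real.sq_sqrt hA] at h7
  exact h6.trans h7

end Pool.MP_70e04f_ag.Strip
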