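import Mathlib

/-!
# Piece TNUME: a real inequality
-/

set_option autoImplicit false

namespace Pool.MP_70e04f_ag.Strip

/-- PROOF. Let `s = √q`, `x = l X ≥ m - s > 0`. `l ^ 2 ν ≤ q` and `hC` give
`q ^ 2 (l D) ≥ l ^ 5 ν ^ 2 D ≥ 1000000 x ^ 5`, and `ν ≤ X ^ 2` gives (`ν ^ 2 ≤ X ^ 4`) `D ≥ 1000000 X`,
`l D ≥ 1000000 x`. If `m ≤ 3` then `x ≥ 0.5857`, resp. `x ≥ 1.2679`, and
`1000000 x ≥ 9400 m ^ 3`. If `m ≥ 4`, `r = √m ≥ 2`: `x ≥ r ^ 2 - r ≥ r ^ 2 / 2`, `q ≤ r ^ 2`, so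
`l D ≥ 1000000 r ^ 10 / (32 r ^ 4) ≥ 31000 r ^ 6`. -/
theorem thin_real2 (m : ℕ) (l X ν D q : ℝ) (hm : 2 ≤ m) (hl : 0 ≤ l) (hX : 0 < X) (hν : 0 < ν)
    (hD : 0 ≤ D) (hq1 : 1 ≤ q) (hqm : q ≤ m) (hν1 : l ^ 2 * ν ≤ q) (hν2 : ν ≤ X ^ 2)
    (hC : 1000000 * X ^ 5 ≤ ν ^ 2 * D) (h1 : (m : ℝ) ≤ l * X + Real.sqrt q) :
    9400 * (m : ℝ) ^ 3 ≤ l * D := by
  have hm2 : (2 : ℝ) ≤ (m : ℝ) := by exact_mod_cast hm
  have hm0 : (0 : ℝ) < (m : ℝ) := by linarith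
  have hq0 : (0 : ℝ) ≤ q := by linarith
  obtain ⟨s, hs⟩ : ∃ s, s = Real.sqrt q := ⟨_, rfl⟩
  have hs0 : 0 ≤ s := hs ▸ Real.sqrt_nonneg q
  have hs2 : s ^ 2 = q := by rw [hs]; exact Real.sq_sqrt hq0
  rw [← hs] at h1
  obtain ⟨x, hx⟩ : ∃ x, x = l * X := ⟨_, rfl⟩
  rw [← hx] at h1
  have hx0 : 0 ≤ x := by rw [hx]; positivity
  have hlD : 0 ≤ l * D := by positivity
  -- (1) `l D ≥ 1000000 x`
  have hν4 : ν ^ 2 ≤ X ^ 4 := by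
    calc ν ^ 2 ≤ (X ^ 2) ^ 2 := pow_le_pow_left₀ hν.le hν2 2
      _ = X ^ 4 := by ring
  have hD1 : 1000000 * X ≤ D := by
    have h2 : X ^ 4 * (1000000 * X) ≤ X ^ 4 * D := by
      calc X ^ 4 * (1000000 * X) = 1000000 * X ^ 5 := by ring
        _ ≤ ν ^ 2 * D := hC
        _ ≤ X ^ 4 * D := mul_le_mul_of_nonneg_right hν4 hD
    exact le_of_mul_le_mul_left h2 (by positivity)
  have hlin : 1000000 * x ≤ l * D := by
    calc 1000000 * x = l * (1000000 * X) := by rw [hx]; ring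
      _ ≤ l * D := mul_le_mul_of_nonneg_left hD1 hl
  -- (2) `q ^ 2 (l D) ≥ 1000000 x ^ 5`
  have hquint : 1000000 * x ^ 5 ≤ q ^ 2 * (l * D) := by
    have h3 : (l ^ 2 * ν) ^ 2 ≤ q ^ 2 := pow_le_pow_left₀ (by positivity) hν1 2
    calc 1000000 * x ^ 5 = l ^ 5 * (1000000 * X ^ 5) := by rw [hx]; ring
      _ ≤ l ^ 5 * (ν ^ 2 * D) := mul_le_mul_of_nonneg_left hC (by positivity)
      _ = (l ^ 2 * ν) ^ 2 * (l * D) := by ring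
      _ ≤ q ^ 2 * (l * D) := mul_le_mul_of_nonneg_right h3 hlD
  by_cases hm4 : 4 ≤ m
  · have hm4' : (4 : ℝ) ≤ (m : ℝ) := by exact_mod_cast hm4
    -- `s ≤ m / 2`
    have hsm : s ≤ (m : ℝ) / 2 := by
      by_contra hcon
      push Not at hcon
      have h5 : ((m : ℝ) / 2) ^ 2 < s ^ 2 := pow_lt_pow_left₀ hcon (by positivity) (by norm_num)
      rw [hs2] at h5
      nlinarith
    have hxm : (m : ℝ) / 2 ≤ x := by linarith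
    have h6 : ((m : ℝ) / 2) ^ 5 ≤ x ^ 5 := pow_le_pow_left₀ (by positivity) hxm 5
    have h7 : q ^ 2 ≤ (m : ℝ) ^ 2 := pow_le_pow_left₀ hq0 hqm 2
    have h8 : (m : ℝ) ^ 2 * (9400 * (m : ℝ) ^ 3) ≤ (m : ℝ) ^ 2 * (l * D) := by
      calc (m : ℝ) ^ 2 * (9400 * (m : ℝ) ^ 3) = 9400 * (m : ℝ) ^ 5 := by ring
        _ ≤ 1000000 * ((m : ℝ) / 2) ^ 5 := by
            have : (0 : ℝ) ≤ (m : ℝ) ^ 5 := by positivity
            calc 9400 * (m : ℝ) ^ 5 ≤ 31250 * (m : ℝ) ^ 5 := by nlinarith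
              _ = 1000000 * ((m : ℝ) / 2) ^ 5 := by ring
        _ ≤ 1000000 * x ^ 5 := by linarith
        _ ≤ q ^ 2 * (l * D) := hquint
        _ ≤ (m : ℝ) ^ 2 * (l * D) := mul_le_mul_of_nonneg_right h7 hlD
    exact le_of_mul_le_mul_left h8 (by positivity)
  · have hm' : m = 2 ∨ m = 3 := by omega
    rcases hm' with rfl | rfl
    · norm_num at h1 hqm ⊢
      have hs3 : s ≤ 3 / 2 := by
        by_contra hcon
        push Not at hcon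
        nlinarith
      linarith
    · norm_num at h1 hqm ⊢
      have hs3 : s ≤ 2 := by
        by_contra hcon
        push Not at hcon
        nlinarith
      linarith

end Pool.MP_70e04f_ag.Strip
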