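import Pool.Agent.Lib_MP_70e04f_thin.TNumA
import Pool.Agent.Lib_MP_70e04f_thin.TNumB
import Pool.Agent.Lib_MP_70e04f_thin.TNumE

/-!
# Piece TNUM: curves which are not positive have many small points or large degree
-/

set_option autoImplicit false

namespace Pool.MP_70e04f_ag.Strip

/-- A curve with a small point of multiplicity `m ≥ 2` which is not positive.
PROOF. Let `q` be defined by `∑ a ^ 2 = e ^ 2 + q`: `1 ≤ q` by `hneg` and `q ≤ m` by `hxu` at the point `i0` of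
multiplicity `m`. `D > 0` since `ν > 0`. Apply `close`, `close_one` (at `i0`), `close_norm` (`T = Sm α`), and
`thin_real` (with `l = e / D`, `A = ∑ i ∈ Sm α, a i ^ 2`, `S = ∑ i ∈ Sm α, M i ^ 2`), resp.
`thin_real2` (`l D = e`). -/
theorem thin_num {n : ℕ} (e D X ν m : ℕ) (a M : Fin n → ℕ) (α : Fin 9 → Fin n) (hX : 1 ≤ X)
    (hother : ∀ i ∈ Sm α, M i ≤ X) (hν : ∑ i, M i ^ 2 + ν = D ^ 2) (hν0 : 0 < ν)
    (hνX : ν ≤ X ^ 2)
    (hthin : 100000 * X ^ 4 ≤ ν * ∑ i ∈ Sm α, M i ^ 2 ∨ 1000000 * X ^ 5 ≤ ν ^ 2 * D)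
    (hxu : ∀ j, 1 ≤ a j → ∑ i, a i ^ 2 ≤ e ^ 2 + a j) (hneg : e ^ 2 < ∑ i, a i ^ 2)
    (hNF : D * e ≤ ∑ i, M i * a i) (h2 : 2 ≤ m) (i0 : Fin n) (hi0 : i0 ∈ Sm α) (hai0 : a i0 = m) :
    3110 * m ^ 3 ≤ ∑ i ∈ Sm α, a i ^ 2 ∨ 9400 * m ^ 3 ≤ e := by
  obtain ⟨q, hq⟩ : ∃ q, ∑ i, a i ^ 2 = e ^ 2 + q := ⟨∑ i, a i ^ 2 - e ^ 2, by omega⟩
  have hq1 : 1 ≤ q := by omega
  have hqm : q ≤ m := by
    have := hxu i0 (by omega)
    omega
  have hD : 0 < D := by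
    rcases Nat.eq_zero_or_pos D with h | h
    · subst h
      simp at hν
      omega
    · exact h
  obtain ⟨l, hl⟩ : ∃ l : ℝ, l = (e : ℝ) / D := ⟨_, rfl⟩
  have hD' : (D : ℝ) ≠ 0 := by positivity
  have hlD : l * D = e := by rw [hl]; field_simp
  have hl0 : 0 ≤ l := by rw [hl]; positivity
  have k1 := close e D ν q a M hD hν hq hNF
  have k2 := close_one e D ν q X a M hD hν hq hNF i0 (hother i0 hi0)
  have k3 := close_norm e D ν q a M hD hν hq hNF (Sm α)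
  rw [← hl] at k1 k2 k3
  rw [hai0] at k2
  have k4 : 0 ≤ ∑ i, (l * M i - a i) ^ 2 := Finset.sum_nonneg fun i _ => sq_nonneg _
  have hX' : (0 : ℝ) < X := by exact_mod_cast hX
  have hν0' : (0 : ℝ) < ν := by exact_mod_cast hν0
  have hq1' : (1 : ℝ) ≤ q := by exact_mod_cast hq1
  have hqm' : (q : ℝ) ≤ m := by exact_mod_cast hqm
  have hνX' : (ν : ℝ) ≤ (X : ℝ) ^ 2 := by exact_mod_cast hνX
  rcases hthin with h | h
  · left
    have h' : (100000 : ℝ) * (X : ℝ) ^ 4 ≤ ν * ∑ i ∈ Sm α, (M i : ℝ) ^ 2 := by exact_mod_cast h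
    have := thin_real m l X ν (∑ i ∈ Sm α, (M i : ℝ) ^ 2) q (∑ i ∈ Sm α, (a i : ℝ) ^ 2) h2 hl0 hX'
      hν0' (Finset.sum_nonneg fun i _ => sq_nonneg _) hq1' hqm'
      (Finset.sum_nonneg fun i _ => sq_nonneg _) (by linarith) hνX' h' k2 k3
    exact_mod_cast this
  · right
    have h' : (1000000 : ℝ) * (X : ℝ) ^ 5 ≤ (ν : ℝ) ^ 2 * D := by exact_mod_cast h
    have := thin_real2 m l X ν D q h2 hl0 hX' hν0' (Nat.cast_nonneg D) hq1' hqm' (by linarith)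
      hνX' h' k2
    rw [hlD] at this
    exact_mod_cast this

end Pool.MP_70e04f_ag.Strip
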