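import Pool.Agent.Lib_MP_70e04f_thin.TDefs

/-!
# Piece TNUMA: a curve which is not positive is close to the given class

`N = (D; M)` with `N ^ 2 = ν`, `F = (e; a)` with `F ^ 2 = - q`, `N F ≤ 0`. Put `l = e / D`.
-/

set_option autoImplicit false

namespace Pool.MP_70e04f_ag.Strip

/-- PROOF. `∑ (l M - a) ^ 2 = l ^ 2 ∑ M ^ 2 - 2 l ∑ M a + ∑ a ^ 2 ≤
l ^ 2 (D ^ 2 - ν) - 2 l D e + e ^ 2 + q`, and `l D = e`. -/
theorem close {n : ℕ} (e D ν q : ℕ) (a M : Fin n → ℕ) (hD : 0 < D)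
    (hν : ∑ i, M i ^ 2 + ν = D ^ 2) (hq : ∑ i, a i ^ 2 = e ^ 2 + q)
    (hNF : D * e ≤ ∑ i, M i * a i) :
    ∑ i, ((e : ℝ) / D * M i - a i) ^ 2 + ((e : ℝ) / D) ^ 2 * ν ≤ q := by
  have hD' : (D : ℝ) ≠ 0 := by positivity
  obtain ⟨l, hl⟩ : ∃ l : ℝ, l = (e : ℝ) / D := ⟨_, rfl⟩
  have hlD : l * D = e := by rw [hl]; field_simp
  have hl0 : 0 ≤ l := by rw [hl]; positivity
  rw [← hl]
  have h1 : ∑ i, (l * M i - a i) ^ 2 =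
      l ^ 2 * ∑ i, (M i : ℝ) ^ 2 - 2 * l * ∑ i, (M i : ℝ) * a i + ∑ i, (a i : ℝ) ^ 2 := by
    rw [Finset.mul_sum, Finset.mul_sum, ← Finset.sum_sub_distrib, ← Finset.sum_add_distrib]
    exact Finset.sum_congr rfl fun i _ => by ring
  have h2 : ∑ i, (M i : ℝ) ^ 2 + ν = (D : ℝ) ^ 2 := by exact_mod_cast hν
  have h3 : ∑ i, (a i : ℝ) ^ 2 = (e : ℝ) ^ 2 + q := by exact_mod_cast hq
  have h4 : (D : ℝ) * e ≤ ∑ i, (M i : ℝ) * a i := by exact_mod_cast hNF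
  have h5 : l * ((D : ℝ) * e) ≤ l * ∑ i, (M i : ℝ) * a i := mul_le_mul_of_nonneg_left h4 hl0
  have h6 : l * ((D : ℝ) * e) = (e : ℝ) ^ 2 := by rw [← mul_assoc, hlD]; ring
  have h7 : l ^ 2 * (∑ i, (M i : ℝ) ^ 2 + ν) = (e : ℝ) ^ 2 := by
    rw [h2, ← mul_pow, hlD]
  rw [h1, h3]
  nlinarith

/-- PROOF. `close` and `a i - l M i ≤ |l M i - a i| ≤ √q`, `M i ≤ X`. -/
theorem close_one {n : ℕ} (e D ν q X : ℕ) (a M : Fin n → ℕ) (hD : 0 < D)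
    (hν : ∑ i, M i ^ 2 + ν = D ^ 2) (hq : ∑ i, a i ^ 2 = e ^ 2 + q)
    (hNF : D * e ≤ ∑ i, M i * a i) (i : Fin n) (hi : M i ≤ X) :
    (a i : ℝ) ≤ (e : ℝ) / D * X + Real.sqrt q := by
  have h1 := close e D ν q a M hD hν hq hNF
  obtain ⟨l, hl⟩ : ∃ l : ℝ, l = (e : ℝ) / D := ⟨_, rfl⟩
  have hl0 : 0 ≤ l := by rw [hl]; positivity
  rw [← hl] at h1 ⊢
  have h2 : (l * M i - a i) ^ 2 ≤ ∑ i, (l * M i - a i) ^ 2 :=
    Finset.single_le_sum (f := fun i => (l * M i - a i) ^ 2) (fun _ _ => sq_nonneg _)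
      (Finset.mem_univ i)
  have h3 : 0 ≤ l ^ 2 * ν := by positivity
  have h4 : (a i - l * M i) ^ 2 ≤ (q : ℝ) := by
    have : (a i - l * M i) ^ 2 = (l * M i - a i) ^ 2 := by ring
    rw [this]
    linarith
  have h5 : a i - l * M i ≤ Real.sqrt q := Real.le_sqrt_of_sq_le h4
  have h6 : l * M i ≤ l * X := mul_le_mul_of_nonneg_left (by exact_mod_cast hi) hl0
  linarith

/-- PROOF. The triangle inequality in `ℓ²` for the family indexed by `T`: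
`l √(∑ M ^ 2) ≤ √(∑ a ^ 2) + √(∑ (l M - a) ^ 2) ≤ √(∑ a ^ 2) + √q` (`close`). (E.g. with
`EuclideanSpace ℝ ↥T`, or from Cauchy-Schwarz `Finset.sum_mul_sq_le_sq_mul_sq` by squaring.) -/
theorem close_norm {n : ℕ} (e D ν q : ℕ) (a M : Fin n → ℕ) (hD : 0 < D)
    (hν : ∑ i, M i ^ 2 + ν = D ^ 2) (hq : ∑ i, a i ^ 2 = e ^ 2 + q)
    (hNF : D * e ≤ ∑ i, M i * a i) (T : Finset (Fin n)) :
    (e : ℝ) / D * Real.sqrt (∑ i ∈ T, (M i : ℝ) ^ 2) ≤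
      Real.sqrt (∑ i ∈ T, (a i : ℝ) ^ 2) + Real.sqrt q := by
  have h1 := close e D ν q a M hD hν hq hNF
  obtain ⟨l, hl⟩ : ∃ l : ℝ, l = (e : ℝ) / D := ⟨_, rfl⟩
  have hl0 : 0 ≤ l := by rw [hl]; positivity
  rw [← hl] at h1 ⊢
  have h2 : ∑ i ∈ T, (l * M i - a i) ^ 2 ≤ ∑ i, (l * M i - a i) ^ 2 :=
    Finset.sum_le_sum_of_subset_of_nonneg (Finset.subset_univ T) (fun _ _ _ => sq_nonneg _)
  have h3 : 0 ≤ l ^ 2 * ν := by positivity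
  set A : ℝ := ∑ i ∈ T, (a i : ℝ) ^ 2 with hA
  set C : ℝ := ∑ i ∈ T, (l * M i - a i) ^ 2 with hC
  have hA0 : 0 ≤ A := Finset.sum_nonneg fun i _ => sq_nonneg _
  have hC0 : 0 ≤ C := Finset.sum_nonneg fun i _ => sq_nonneg _
  have hCq : Real.sqrt C ≤ Real.sqrt q := Real.sqrt_le_sqrt (by linarith)
  have hcs : ∑ i ∈ T, (a i : ℝ) * (l * M i - a i) ≤ Real.sqrt A * Real.sqrt C :=
    Real.sum_mul_le_sqrt_mul_sqrt T _ _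
  have h4 : l ^ 2 * ∑ i ∈ T, (M i : ℝ) ^ 2 =
      A + 2 * ∑ i ∈ T, (a i : ℝ) * (l * M i - a i) + C := by
    rw [hA, hC, Finset.mul_sum, Finset.mul_sum, ← Finset.sum_add_distrib,
      ← Finset.sum_add_distrib]
    exact Finset.sum_congr rfl fun i _ => by ring
  have h5 : l * Real.sqrt (∑ i ∈ T, (M i : ℝ) ^ 2) =
      Real.sqrt (l ^ 2 * ∑ i ∈ T, (M i : ℝ) ^ 2) := by
    rw [Real.sqrt_mul (sq_nonneg l), Real.sqrt_sq hl0]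
  rw [h5]
  have h6 : l ^ 2 * ∑ i ∈ T, (M i : ℝ) ^ 2 ≤ (Real.sqrt A + Real.sqrt C) ^ 2 := by
    rw [h4, add_sq, Real.sq_sqrt hA0, Real.sq_sqrt hC0]
    linarith
  have h7 : Real.sqrt (l ^ 2 * ∑ i ∈ T, (M i : ℝ) ^ 2) ≤ Real.sqrt A + Real.sqrt C :=
    Real.sqrt_le_iff.2 ⟨by positivity, h6⟩
  linarith

end Pool.MP_70e04f_ag.Strip
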