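import Pool.Agent.Lib_MP_70e04f_thin.TDefs

/-!
# Piece TNUMC: numerical positivity, easy cases
-/

set_option autoImplicit false

namespace Pool.MP_70e04f_ag.Strip

/-- `F ^ 2 ≥ 0`. PROOF. Cauchy: `(∑ M a) ^ 2 ≤ ∑ M ^ 2 ∑ a ^ 2 < D ^ 2 e ^ 2` (`e ≥ 1`). -/
theorem num_sq {n : ℕ} (e D : ℕ) (a M : Fin n → ℕ) (he : 1 ≤ e) (hsq : ∑ i, M i ^ 2 < D ^ 2)
    (h : ∑ i, a i ^ 2 ≤ e ^ 2) : ∑ i, M i * a i < D * e := by
  have he2 : 0 < e ^ 2 := by positivity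
  have h5 := SNum_cauchy M a 0 0
  have h7 : (∑ i, M i * a i) ^ 2 < (D * e) ^ 2 := by
    calc (∑ i, M i * a i) ^ 2 ≤ (∑ i, M i ^ 2) * (∑ i, a i ^ 2) := by
          simpa using h5
      _ ≤ (∑ i, M i ^ 2) * e ^ 2 := Nat.mul_le_mul le_rfl h
      _ < D ^ 2 * e ^ 2 := Nat.mul_lt_mul_of_pos_right (by omega) he2
      _ = (D * e) ^ 2 := (mul_pow D e 2).symm
  exact lt_of_pow_lt_pow_left₀ 2 (Nat.zero_le _) h7

/-- `K F < 0`. PROOF. `abel_nine` with `T = ∑ a (α s) ≤ ∑ a < 3 e`: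
`∑ M (α s) a (α s) ≤ D e - M (α 8) (3 e - T)`. The rest of the sum is `≤ X ∑ i ∈ Sm α, a i ≤
M (α 8) ∑ i ∈ Sm α, a i`, and `3 e - T ≥ ∑ i ∈ Sm α, a i + 1` (`sum_Sm`). -/
theorem num_K {n : ℕ} (e D X : ℕ) (a M : Fin n → ℕ) (α : Fin 9 → Fin n)
    (hα : Function.Injective α) (hae : ∀ i, a i ≤ e) (hK : ∑ i, a i + 1 ≤ 3 * e)
    (hanti : Antitone (fun s => M (α s))) (hX : 1 ≤ X) (hX8 : X ≤ M (α 8))
    (hother : ∀ i, i ∉ Set.range α → M i ≤ X) (hstd : M (α 0) + M (α 1) + M (α 2) ≤ D) :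
    ∑ i, M i * a i < D * e := by
  set O := (Finset.univ.map ⟨α, hα⟩)ᶜ with hO
  have memO : ∀ i, i ∈ O → i ∉ Set.range α := by
    rintro i hi ⟨s, hs⟩
    rw [hO, Finset.mem_compl] at hi
    exact hi (Finset.mem_map.2 ⟨s, Finset.mem_univ s, hs⟩)
  have hsa := SNum_split α hα a
  have hsM := SNum_split α hα (fun i => M i * a i)
  rw [← hO] at hsa hsM
  have hOM : ∑ i ∈ O, M i * a i ≤ X * ∑ i ∈ O, a i := by
    rw [Finset.mul_sum]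
    exact Finset.sum_le_sum fun i hi => Nat.mul_le_mul (hother i (memO i hi)) le_rfl
  have hab := abel_nine (e : ℤ) (D : ℤ) (fun s => (a (α s) : ℤ)) (fun s => (M (α s) : ℤ))
    (fun s => Int.natCast_nonneg _) (fun s => by exact_mod_cast hae (α s))
    (by have : ∑ s, a (α s) ≤ 3 * e := by omega
        exact_mod_cast this)
    (fun s t hst => Int.ofNat_le.2 (hanti hst)) (by exact_mod_cast hstd)
  obtain ⟨T, hT⟩ : ∃ T, T = ∑ s, a (α s) := ⟨_, rfl⟩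
  obtain ⟨S, hS⟩ : ∃ S, S = ∑ i ∈ O, a i := ⟨_, rfl⟩
  obtain ⟨P, hP⟩ : ∃ P, P = ∑ s, M (α s) * a (α s) := ⟨_, rfl⟩
  obtain ⟨Q, hQ⟩ : ∃ Q, Q = ∑ i ∈ O, M i * a i := ⟨_, rfl⟩
  have hab' : (P : ℤ) + (M (α 8) : ℤ) * (3 * e - T) ≤ D * e := by
    rw [hP, hT]
    push_cast
    exact hab
  rw [hsM, ← hP, ← hQ]
  rw [← hQ, ← hS] at hOM
  rw [← hT, ← hS] at hsa
  rw [hsa] at hK
  have h1 : (M (α 8) : ℤ) * (S + 1) ≤ (M (α 8) : ℤ) * (3 * e - T) :=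
    mul_le_mul_of_nonneg_left (by omega) (Int.natCast_nonneg _)
  have h2 : (Q : ℤ) ≤ (X : ℤ) * S := by exact_mod_cast hOM
  have h3 : (X : ℤ) * S ≤ (M (α 8) : ℤ) * S :=
    mul_le_mul_of_nonneg_right (by exact_mod_cast hX8) (Int.natCast_nonneg _)
  have h4 : (1 : ℤ) ≤ M (α 8) := by exact_mod_cast hX.trans hX8
  have h5 : (P : ℤ) + Q < D * e := by linarith
  exact_mod_cast h5

end Pool.MP_70e04f_ag.Strip
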