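import Pool.Agent.Lib_MP_70e04f_thin.TNumC

/-!
# Piece TNUMF: numerical positivity if the small multiplicities are at most one
-/

set_option autoImplicit false

namespace Pool.MP_70e04f_ag.Strip

/-- All small multiplicities of `F` are at most `1`. PROOF. This is part (2) of the proof of `num` in
`Lib_MP_70e04f_strip/SNum.lean` (which does not use `X` in the hypothesis on the squares). -/
theorem num_one {n : ℕ} (e D X : ℕ) (a M : Fin n → ℕ) (α : Fin 9 → Fin n)
    (hα : Function.Injective α) (he : 1 ≤ e) (hae : ∀ i, a i ≤ e)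
    (hxu : ∀ j, 1 ≤ a j → ∑ i, a i ^ 2 ≤ e ^ 2 + a j)
    (hnine : ∑ s, a (α s) + 1 ≤ 3 * e)
    (hts : ∀ i j, i ≠ j → a i = 1 → a j = 1 → ∑ s, a s ^ 2 = e ^ 2 + 1 → ∑ s, a s + 1 ≤ 3 * e)
    (hanti : Antitone (fun s => M (α s))) (hX : 1 ≤ X) (hX8 : X ≤ M (α 8))
    (hother : ∀ i, i ∉ Set.range α → M i ≤ X) (hstd : M (α 0) + M (α 1) + M (α 2) ≤ D)
    (hsq : ∑ i, M i ^ 2 < D ^ 2) (h1 : ∀ i, i ∉ Set.range α → a i ≤ 1) :
    ∑ i, M i * a i < D * e := by
  have he2 : 0 < e ^ 2 := by positivity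
  have hcase : ∀ i, i ∉ Set.range α → a i < 2 := fun i hi => by have := h1 i hi; omega
  set O := (Finset.univ.map ⟨α, hα⟩)ᶜ with hO
  have memO : ∀ i, i ∈ O → i ∉ Set.range α := by
    rintro i hi ⟨s, hs⟩
    rw [hO, Finset.mem_compl] at hi
    exact hi (Finset.mem_map.2 ⟨s, Finset.mem_univ s, hs⟩)
  have ha1 : ∀ i ∈ O, a i ≤ 1 := fun i hi => by
    have := hcase i (memO i hi)
    omega
  have hsa := SNum_split α hα a
  have hsM := SNum_split α hα (fun i => M i * a i)
  rw [← hO] at hsa hsM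
  have hOM : ∑ i ∈ O, M i * a i ≤ X * ∑ i ∈ O, a i := by
    rw [Finset.mul_sum]
    exact Finset.sum_le_sum fun i hi => Nat.mul_le_mul (hother i (memO i hi)) le_rfl
  have hab := abel_nine (e : ℤ) (D : ℤ) (fun s => (a (α s) : ℤ)) (fun s => (M (α s) : ℤ))
    (fun s => Int.natCast_nonneg _) (fun s => by exact_mod_cast hae (α s))
    (by have : ∑ s, a (α s) ≤ 3 * e := by omega
        exact_mod_cast this)
    (fun s t hst => Int.ofNat_le.2 (hanti hst)) (by exact_mod_cast hstd)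
  obtain ⟨T, hT⟩ : ∃ T, T = ∑ s, a (α s) := ⟨_, rfl⟩
  obtain ⟨S, hS⟩ : ∃ S, S = ∑ i ∈ O, a i := ⟨_, rfl⟩
  obtain ⟨P, hP⟩ : ∃ P, P = ∑ s, M (α s) * a (α s) := ⟨_, rfl⟩
  obtain ⟨Q, hQ⟩ : ∃ Q, Q = ∑ i ∈ O, M i * a i := ⟨_, rfl⟩
  have hab' : (P : ℤ) + (M (α 8) : ℤ) * (3 * e - T) ≤ D * e := by
    rw [hP, hT]
    push_cast
    exact hab
  rw [hsM, ← hP, ← hQ]
  rw [← hQ, ← hS] at hOM
  rw [← hT, ← hS] at hsa
  rw [← hT] at hnine
  have hsum_eq := hsM
  have key : ∀ w : ℕ, (w : ℤ) ≤ 3 * e - T → X * S < M (α 8) * w → P + Q < D * e := by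
    intro w hw hlt
    have h1 : (M (α 8) : ℤ) * w ≤ (M (α 8) : ℤ) * (3 * e - T) :=
      mul_le_mul_of_nonneg_left hw (Int.natCast_nonneg _)
    have h2 : ((X * S : ℕ) : ℤ) < ((M (α 8) * w : ℕ) : ℤ) := by exact_mod_cast hlt
    have h3 : (Q : ℤ) ≤ ((X * S : ℕ) : ℤ) := by exact_mod_cast hOM
    push_cast at h2 h3
    have h4 : (P : ℤ) + Q < D * e := by linarith
    exact_mod_cast h4
  by_cases hS0 : S = 0
  · refine key 1 (by push_cast; omega) ?_
    rw [hS0]
    omega
  · -- an index outside with value one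
    obtain ⟨j, hj, hj0⟩ : ∃ j ∈ O, a j ≠ 0 := by
      by_contra hno
      push Not at hno
      exact hS0 (hS.trans (Finset.sum_eq_zero hno))
    have hj1 : a j = 1 := by have := ha1 j hj; omega
    have h1 := hxu j (by omega)
    rw [hj1] at h1
    by_cases hle : ∑ i, a i ^ 2 ≤ e ^ 2
    · have h5 := SNum_cauchy M a 0 0
      have h7 : (∑ i, M i * a i) ^ 2 < (D * e) ^ 2 := by
        calc (∑ i, M i * a i) ^ 2 ≤ (∑ i, M i ^ 2) * (∑ i, a i ^ 2) := by
              simpa using h5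
          _ ≤ (∑ i, M i ^ 2) * e ^ 2 := Nat.mul_le_mul le_rfl hle
          _ < D ^ 2 * e ^ 2 := Nat.mul_lt_mul_of_pos_right (by omega) he2
          _ = (D * e) ^ 2 := (mul_pow D e 2).symm
      have h8 := lt_of_pow_lt_pow_left₀ 2 (Nat.zero_le _) h7
      rw [hsM, ← hP, ← hQ] at h8
      exact h8
    · have heq : ∑ i, a i ^ 2 = e ^ 2 + 1 := by omega
      by_cases hS2 : 2 ≤ S
      · obtain ⟨i, hi, hij, hi0⟩ : ∃ i ∈ O, i ≠ j ∧ a i ≠ 0 := by
          by_contra hno
          push Not at hno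
          have : S = a j := by
            rw [hS]
            refine Finset.sum_eq_single j (fun i hi hij => hno i hi hij) (fun h => absurd hj h)
          omega
        have hi1 : a i = 1 := by have := ha1 i hi; omega
        have h9 := hts i j hij hi1 hj1 heq
        rw [hsa] at h9
        refine key (S + 1) (by push_cast; omega) ?_
        have : X * S < X * (S + 1) := by nlinarith
        exact lt_of_lt_of_le this (Nat.mul_le_mul hX8 le_rfl)
      · have hS1 : S = 1 := by omega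
        have hpar := SNum_parity a
        rw [heq, hsa, hS1] at hpar
        have hpe : (e ^ 2 + 1) % 2 = (e + 1) % 2 := by
          rcases Nat.mod_two_eq_zero_or_one e with h | h
          · rw [Nat.add_mod, Nat.pow_mod, h, Nat.add_mod e, h]
          · rw [Nat.add_mod, Nat.pow_mod, h, Nat.add_mod e, h]
        rw [hpe] at hpar
        refine key 2 (by push_cast; omega) ?_
        rw [hS1]
        nlinarith

end Pool.MP_70e04f_ag.Strip
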