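import Pool.Agent.Lib_MP_70e04f_thin.TDefs

/-!
# Piece TNUMG: the sum of three multiplicities
-/

set_option autoImplicit false

namespace Pool.MP_70e04f_ag.Strip

theorem TNumG_ind {n : ℕ} {ι : Fin 3 → Fin n} (hι : Function.Injective ι) (x : Fin n) (c : ℕ) :
    ∑ j, (if ι j = x then c else 0) ≤ c := by
  by_cases h : ∃ j, ι j = x
  · obtain ⟨j, rfl⟩ := h
    rw [Finset.sum_eq_single j]
    · simp
    · intro b _ hb
      rw [if_neg (fun h => hb (hι h))]
    · intro h
      exact absurd (Finset.mem_univ j) h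
  · push Not at h
    rw [Finset.sum_eq_zero]
    · exact Nat.zero_le _
    · intro j _
      rw [if_neg (h j)]

/-- three points have at most the sum of the three largest multiplicities.
PROOF. `M (ι j)` is at most `M (α 0)`, ...; let `V` be the image of `ι`, three indices. Every `i` outside
of `range α` has `M i ≤ X ≤ M (α 8)`. (E.g. compare with the sorted sequence, or: the `j`-th largest
of the three is at most `M (α j)` by counting.) -/
theorem three_le {n : ℕ} (D X : ℕ) (M : Fin n → ℕ) (α : Fin 9 → Fin n)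
    (hα : Function.Injective α) (hanti : Antitone (fun s => M (α s))) (hX8 : X ≤ M (α 8))
    (hother : ∀ i, i ∉ Set.range α → M i ≤ X) (hstd : M (α 0) + M (α 1) + M (α 2) ≤ D)
    (ι : Fin 3 → Fin n) (hι : Function.Injective ι) : ∑ j, M (ι j) ≤ D := by
  have _ := hα
  have h01 : M (α 1) ≤ M (α 0) := hanti (show (0 : Fin 9) ≤ 1 by decide)
  have h12 : M (α 2) ≤ M (α 1) := hanti (show (1 : Fin 9) ≤ 2 by decide)
  have h28 : M (α 8) ≤ M (α 2) := hanti (show (2 : Fin 9) ≤ 8 by decide)
  have h1 : ∀ j, M (ι j) ≤ M (α 2) + (if ι j = α 0 then M (α 0) - M (α 2) else 0) +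
      (if ι j = α 1 then M (α 1) - M (α 2) else 0) := by
    intro j
    by_cases h0 : ι j = α 0
    · rw [if_pos h0, h0]
      omega
    by_cases h1 : ι j = α 1
    · rw [if_neg h0, if_pos h1, h1]
      omega
    rw [if_neg h0, if_neg h1]
    by_cases h : ι j ∈ Set.range α
    · obtain ⟨s, hs⟩ := h
      rw [← hs] at h0 h1 ⊢
      have : (2 : Fin 9) ≤ s := by
        by_contra hc
        have hc' : s < 2 := not_le.1 hc
        have h3 : s = 0 ∨ s = 1 := (show ∀ s : Fin 9, s < 2 → s = 0 ∨ s = 1 by decide) s hc'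
        rcases h3 with rfl | rfl
        · exact h0 rfl
        · exact h1 rfl
      have := hanti this
      simp only at this
      omega
    · have := hother _ h
      omega
  have h2 := Finset.sum_le_sum (fun j (_ : j ∈ (Finset.univ : Finset (Fin 3))) => h1 j)
  rw [Finset.sum_add_distrib, Finset.sum_add_distrib] at h2
  have h3 := TNumG_ind hι (α 0) (M (α 0) - M (α 2))
  have h4 := TNumG_ind hι (α 1) (M (α 1) - M (α 2))
  have h5 : ∑ _j : Fin 3, M (α 2) = 3 * M (α 2) := by
    rw [Finset.sum_const]
    simp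
  omega

end Pool.MP_70e04f_ag.Strip
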