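import Pool.Agent.Lib_MP_70e04f_cre.Base
import Pool.Agent.Lib_MP_70e04f_thin.TDefs

/-!
# Piece TSTD: classes in standard form with many small points, or of large degree
-/

set_option autoImplicit false

namespace Pool.MP_70e04f_ag.Strip

open MvPolynomial

/-- splitting a sum over the nine points and the others -/
theorem TStd_split {n : ℕ} (β : Fin 9 → Fin n) (hβ : Function.Injective β) (f : Fin n → ℕ) :
    ∑ i, f i = ∑ j, f (β j) + ∑ i ∈ Sm β, f i := sum_Sm hβ f

/-- the sum of the squares over `Sm α` is at most `9 m ^ 2` plus the sum over `Sm β` -/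
theorem TStd_sum {n m : ℕ} (a : Fin n → ℕ) (α β : Fin 9 → Fin n)
    (hm : ∀ i ∈ Sm α, a i ≤ m) :
    ∑ i ∈ Sm α, a i ^ 2 ≤ 9 * m ^ 2 + ∑ i ∈ Sm β, a i ^ 2 := by
  classical
  have h1 : Sm α ⊆ (Sm α ∩ Finset.univ.image β) ∪ Sm β := by
    intro i hi
    rw [Finset.mem_union, Finset.mem_inter]
    by_cases hb : i ∈ Finset.univ.image β
    · exact Or.inl ⟨hi, hb⟩
    · right
      unfold Sm
      rw [Finset.mem_compl]
      exact hb
  have h2 : ∑ i ∈ Sm α, a i ^ 2 ≤
      ∑ i ∈ (Sm α ∩ Finset.univ.image β) ∪ Sm β, a i ^ 2 :=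
    Finset.sum_le_sum_of_subset h1
  have h3 : ∑ i ∈ (Sm α ∩ Finset.univ.image β) ∪ Sm β, a i ^ 2 ≤
      ∑ i ∈ Sm α ∩ Finset.univ.image β, a i ^ 2 + ∑ i ∈ Sm β, a i ^ 2 := by
    have := Finset.sum_union_inter (s₁ := Sm α ∩ Finset.univ.image β) (s₂ := Sm β)
      (f := fun i => a i ^ 2)
    omega
  have h4 : ∑ i ∈ Sm α ∩ Finset.univ.image β, a i ^ 2 ≤
      (Sm α ∩ Finset.univ.image β).card • m ^ 2 := by
    apply Finset.sum_le_card_nsmul
    intro i hi
    exact Nat.pow_le_pow_left (hm i (Finset.mem_inter.1 hi).1) 2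
  have h5 : (Sm α ∩ Finset.univ.image β).card ≤ 9 := by
    calc (Sm α ∩ Finset.univ.image β).card ≤ (Finset.univ.image β).card :=
          Finset.card_le_card Finset.inter_subset_right
      _ ≤ (Finset.univ : Finset (Fin 9)).card := Finset.card_image_le
      _ = 9 := by simp
  have h6 : (Sm α ∩ Finset.univ.image β).card • m ^ 2 ≤ 9 * m ^ 2 := by
    rw [smul_eq_mul]
    exact Nat.mul_le_mul_right _ h5
  omega

/-- PROOF. Follow the proof of `Cre.base` (`Lib_MP_70e04f_cre/Base.lean`): `exists_sorted` gives the nine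
largest ones `β`; if all the others are zero `base_nine`; otherwise let `a i0` be the largest one
outside of `β`, `1 ≤ a i0 ≤ m` (the tenth multiplicity is at most `m`, as there), and apply
`Hal.gen_nine_all` with `m = a i0`, with the third alternative if `9400 m ^ 3 ≤ e`. In the other case
with the first one: as `∑ a ^ 2 ≤ e ^ 2 + m` it is enough that
`3100 (a i0) ^ 3 + m ≤ ∑ i ∉ range β, a i ^ 2`. The indices `i ∉ range α` which are in `range β` are at
most nine and have `a i ≤ m`, so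
`∑ i ∉ range β, a i ^ 2 ≥ ∑ i ∈ Sm α, a i ^ 2 - 9 m ^ 2 ≥ 3110 m ^ 3 - 9 m ^ 2 ≥ 3100 m ^ 3 + m`.
(`GExp` and `Hex.GenExp` have the same body.) -/
theorem gexp_std {n e m : ℕ} (a : Fin n → ℕ) (α : Fin 9 → Fin n) (hα : Function.Injective α)
    (hm : ∀ i ∈ Sm α, a i ≤ m)
    (h3 : ∀ ι : Fin 3 → Fin n, Function.Injective ι → ∑ j, a (ι j) ≤ e)
    (hbig : (3110 * m ^ 3 ≤ ∑ i ∈ Sm α, a i ^ 2 ∧ ∑ i, a i ^ 2 ≤ e ^ 2 + m) ∨
      9400 * m ^ 3 ≤ e) : GExp e a := by
  classical
  obtain ⟨β, hβ, hanti, hβ8⟩ := Cre.exists_sorted a α hα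
  by_cases hz : ∀ i, i ∉ Set.range β → a i = 0
  · exact Cre.base_nine a β hβ hz h3
  push Not at hz
  obtain ⟨i1, hi1, hi1'⟩ := hz
  obtain ⟨i0, hi0, hmax⟩ := Finset.exists_max_image (Finset.univ.filter fun i => i ∉ Set.range β)
    a ⟨i1, by simpa using hi1⟩
  have hi0' : i0 ∉ Set.range β := (Finset.mem_filter.1 hi0).2
  have hmax' : ∀ i, i ∉ Set.range β → a i ≤ a i0 := fun i hi =>
    hmax i (Finset.mem_filter.2 ⟨Finset.mem_univ i, hi⟩)
  have hpos : 1 ≤ a i0 := (Nat.one_le_iff_ne_zero.2 hi1').trans (hmax' i1 hi1)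
  have h08 : a i0 ≤ a (β 8) := hβ8 i0 hi0'
  -- the tenth multiplicity is at most `m`
  have hm0 : a i0 ≤ m := by
    by_contra hcon
    push Not at hcon
    have hin : ∀ i, a i0 ≤ a i → i ∈ Finset.univ.image α := by
      intro i hi
      by_contra h
      have h1 := hm i (mem_Sm.2 (by
        rintro ⟨t, rfl⟩
        exact h (Finset.mem_image_of_mem α (Finset.mem_univ t))))
      omega
    have hsub : insert i0 (Finset.univ.image β) ⊆ Finset.univ.image α := by
      intro i hi
      rw [Finset.mem_insert, Finset.mem_image] at hi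
      apply hin
      rcases hi with rfl | ⟨t, _, rfl⟩
      · exact le_rfl
      · exact h08.trans (hanti (show t ≤ 8 by omega))
    have hc := Finset.card_le_card hsub
    rw [Finset.card_insert_of_notMem (by
      intro h
      rw [Finset.mem_image] at h
      obtain ⟨t, _, ht⟩ := h
      exact hi0' ⟨t, ht⟩), Finset.card_image_of_injective _ hβ,
      Finset.card_image_of_injective _ hα] at hc
    simp at hc
  have h9 : ∑ j, a (β j) ≤ 3 * e :=
    Add.sum_nine (Finset.univ : Finset (Fin 9)) (by simp) (fun t => a (β t)) e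
      (Cre.card_three_le a β hβ h3)
  obtain ⟨κ, hκ⟩ : ∃ κ, ∑ j, a (β j) + κ = 3 * e := ⟨3 * e - ∑ j, a (β j), by omega⟩
  have hcube : a i0 ^ 3 ≤ m ^ 3 := Nat.pow_le_pow_left hm0 3
  refine Hal.gen_nine_all (a i0) e e κ a β hβ hanti hpos h08 hmax' ?_ hκ ?_ (Or.inl rfl)
  · have h := h3 ![β 0, β 1, β 2] (by
      intro a b hab
      fin_cases a <;> fin_cases b <;> first | rfl | (exfalso; simp [hβ.eq_iff] at hab))
    rw [Fin.sum_univ_three] at h
    exact h
  · rcases hbig with ⟨hb1, hb2⟩ | hb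
    · left
      have hs1 := TStd_split β hβ (fun i => a i ^ 2)
      have hs2 := TStd_sum a α β hm
      have hm1 : 1 ≤ m := hpos.trans hm0
      have hc1 : m * m ≤ m * m * m := Nat.le_mul_of_pos_right _ hm1
      have hc2 : m ≤ m * m := Nat.le_mul_of_pos_right _ hm1
      have hcomp : 9 * m ^ 2 + m ≤ 10 * m ^ 3 := by
        have e1 : m ^ 2 = m * m := by ring
        have e2 : m ^ 3 = m * m * m := by ring
        rw [e1, e2]
        omega
      omega
    · right; right
      omega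

end Pool.MP_70e04f_ag.Strip
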