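import Pool.Agent.Lib_MP_70e04f_thin.TPosA
import Pool.Agent.Lib_MP_70e04f_thin.TEffC
import Pool.Agent.Lib_MP_70e04f_thin.TStd
import Pool.Agent.Lib_MP_70e04f_thin.TNum

/-!
# Piece TPOSC: a class in standard form which is not positive is not effective
-/

set_option autoImplicit false

namespace Pool.MP_70e04f_ag.Strip

open MvPolynomial

/-- PROOF. Let `m = a i0`, `i0 ∈ Sm α`, be the largest one of the multiplicities in `Sm α`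
(`Finset.exists_max_image`), `2 ≤ m`. By `thin_num` and `gexp_std` (`∑ a ^ 2 ≤ e ^ 2 + m` by `hxu`),
`GExp e a`. By `chi_le` and `GExp.not_eff0`, `¬ Eff0 e a`. -/
theorem not_eff0_std {n : ℕ} (e D X ν : ℕ) (a M : Fin n → ℕ) (α : Fin 9 → Fin n)
    (hα : Function.Injective α) (hX : 1 ≤ X) (hother : ∀ i ∈ Sm α, M i ≤ X)
    (hν : ∑ i, M i ^ 2 + ν = D ^ 2) (hν0 : 0 < ν) (hνX : ν ≤ X ^ 2)
    (hthin : 100000 * X ^ 4 ≤ ν * ∑ i ∈ Sm α, M i ^ 2 ∨ 1000000 * X ^ 5 ≤ ν ^ 2 * D)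
    (hxu : ∀ j, 1 ≤ a j → ∑ i, a i ^ 2 ≤ e ^ 2 + a j) (hneg : e ^ 2 < ∑ i, a i ^ 2)
    (hK : 3 * e ≤ ∑ i, a i) (hNF : D * e ≤ ∑ i, M i * a i) (h2 : ∃ i ∈ Sm α, 2 ≤ a i)
    (h3 : ∀ ι : Fin 3 → Fin n, Function.Injective ι → ∑ j, a (ι j) ≤ e) : ¬ Eff0 e a := by
  obtain ⟨i1, hi1, h2⟩ := h2
  obtain ⟨i0, hi0, hmax⟩ := Finset.exists_max_image (Sm α) a ⟨i1, hi1⟩
  have hm : 2 ≤ a i0 := h2.trans (hmax i1 hi1)
  have h4 := thin_num e D X ν (a i0) a M α hX hother hν hν0 hνX hthin hxu hneg hNF hm i0 hi0 rfl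
  have h5 := hxu i0 (by omega)
  refine (gexp_std (m := a i0) a α hα hmax h3 ?_).not_eff0 (chi_le e a hneg hK)
  rcases h4 with h | h
  · exact Or.inl ⟨h, h5⟩
  · exact Or.inr h

end Pool.MP_70e04f_ag.Strip
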