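import Pool.Agent.Lib_MP_70e04f_thin.TPosB
import Pool.Agent.Lib_MP_70e04f_thin.TPosC
import Pool.Agent.Lib_MP_70e04f_thin.TNumF
import Pool.Agent.Lib_MP_70e04f_thin.TNumG
import Pool.Agent.Lib_MP_70e04f_thin.TFacts
import Pool.Agent.Lib_MP_70e04f_thin.TFactB

/-!
# Piece TPOS: positivity in the thin strip
-/

set_option autoImplicit false

namespace Pool.MP_70e04f_ag.Strip

open MvPolynomial

/-- Positivity in the thin strip.
PROOF. Let `B` be the maximum of `E`, `3` and the bound of `eff_large_all n E`. Let `ℓ > B`. Strong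
induction on the degree `e ≤ E` of `F`: suppose that `dotp ≤ 0` and that the claim is true for all the
irreducible curves of smaller degree. Let `a i = mu (gp i) F ≤ e` (`mu_le_deg`), so
`D e ≤ ∑ M a`. By `nine_or`, `xu`, `two_simple`, `num_sq`, `num_K`, `num_one`: `e ^ 2 < ∑ a ^ 2`,
`3 e ≤ ∑ a`, and some point of `Sm α` has `a i ≥ 2`. So `e ≥ 2` and `pair_le` holds. `EffL n ℓ e a`
(by `F`, `mem_iff_le_mu`), so `Eff0 e a` by the choice of `ℓ`.
(1) `F` is in standard form: `∑ j, a (ι j) ≤ e` for all injective `ι`. Otherwise `exists_smaller`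
(`three_le`) gives an irreducible curve of smaller degree with `dotp ≤ 0`: contradiction.
(2) `not_eff0_std`: contradiction to `Eff0 e a`. -/
theorem pos_thin {n : ℕ} (D X ν : ℕ) (M : Fin n → ℕ) (α : Fin 9 → Fin n)
    (hα : Function.Injective α) (hanti : Antitone (fun s => M (α s))) (hX : 1 ≤ X)
    (hX8 : X ≤ M (α 8)) (hother : ∀ i, i ∉ Set.range α → M i ≤ X)
    (hstd : M (α 0) + M (α 1) + M (α 2) ≤ D) (hν : ∑ i, M i ^ 2 + ν = D ^ 2) (hν0 : 0 < ν)
    (hνX : ν ≤ X ^ 2)
    (hthin : 100000 * X ^ 4 ≤ ν * ∑ i ∈ Sm α, M i ^ 2 ∨ 1000000 * X ^ 5 ≤ ν ^ 2 * D) (E : ℕ) :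
    ∃ B : ℕ, ∀ ℓ : ℕ, ∀ [Fact ℓ.Prime], B < ℓ → ∀ F : A2 (KK n ℓ), Irreducible F →
      F.totalDegree ≤ E → 1 ≤ dotp D M (gp n ℓ) F := by
  obtain ⟨B0, hB0⟩ := eff_large_all n E
  refine ⟨B0 + E + 3, fun ℓ _ hℓ => ?_⟩
  have hsq : ∑ i, M i ^ 2 < D ^ 2 := by omega
  have key : ∀ e : ℕ, ∀ F : A2 (KK n ℓ), Irreducible F → F.totalDegree = e → e ≤ E →
      1 ≤ dotp D M (gp n ℓ) F := by
    intro e
    induction e using Nat.strong_induction_on with
    | _ e ih =>
      intro F hF hFe hE
      by_contra hcon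
      have hF0 : F ≠ 0 := hF.ne_zero
      have hdeg : F.totalDegree < ℓ := by omega
      rcases nine_or (by omega) D M α hα hsq hF hdeg with h9 | h9
      · exact hcon h9
      obtain ⟨a, ha⟩ : ∃ a : Fin n → ℕ, a = fun i => mu (gp n ℓ i) F := ⟨_, rfl⟩
      have hai : ∀ i, mu (gp n ℓ i) F = a i := fun i => by rw [ha]
      have hNF : D * e ≤ ∑ i, M i * a i := by
        unfold dotp at hcon
        simp only [hai, hFe] at hcon
        have h1 : (D : ℤ) * e ≤ ∑ i, (M i : ℤ) * a i := by linarith
        exact_mod_cast h1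
      have hxu : ∀ j, 1 ≤ a j → ∑ i, a i ^ 2 ≤ e ^ 2 + a j := by
        intro j hj
        have h := xu hF hdeg j (by rw [hai]; exact hj)
        simp only [hai, hFe] at h
        exact h
      have hts : ∀ i j, i ≠ j → a i = 1 → a j = 1 → ∑ s, a s ^ 2 = e ^ 2 + 1 →
          ∑ s, a s + 1 ≤ 3 * e := by
        intro i j hij hi hj hs
        have h := two_simple hF hdeg hij (by rw [hai]; exact hi) (by rw [hai]; exact hj)
          (by simp only [hai, hFe]; exact hs)
        simp only [hai, hFe] at h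
        exact h
      have hae : ∀ i, a i ≤ e := by
        intro i
        rw [← hai, ← hFe]
        exact mu_le_deg hF0
      have he : 1 ≤ e := by rw [← hFe]; exact spos_deg hF
      have hnine : ∑ s, a (α s) + 1 ≤ 3 * e := by
        simp only [hai, hFe] at h9
        exact h9
      have hneg : e ^ 2 < ∑ i, a i ^ 2 := by
        by_contra h
        have := num_sq e D a M he hsq (not_lt.1 h)
        omega
      have hK : 3 * e ≤ ∑ i, a i := by
        by_contra h
        have := num_K e D X a M α hα hae (by omega) hanti hX hX8 hother hstd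
        omega
      have h1 : ∃ i ∈ Sm α, 2 ≤ a i := by
        by_contra h
        push Not at h
        have := num_one e D X a M α hα he hae hxu hnine hts hanti hX hX8 hother hstd hsq
          (fun i hi => by have := h i (mem_Sm.2 hi); omega)
        omega
      have heff : Eff0 e a := by
        refine hB0 ℓ (by omega) e a hE (fun i => (hae i).trans hE) ?_
        refine ⟨F, hF0, mem_Pt.2 hFe.le, mem_Iz.2 fun i => ?_⟩
        rw [mem_iff_le_mu hF0, hai]
      have h2 : 2 ≤ F.totalDegree := by
        obtain ⟨i, _, hi⟩ := h1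
        have := hae i
        omega
      by_cases h3 : ∀ ι : Fin 3 → Fin n, Function.Injective ι → ∑ j, a (ι j) ≤ e
      · exact not_eff0_std e D X ν a M α hα hX (fun i hi => hother i (mem_Sm.1 hi)) hν hν0 hνX
          hthin hxu hneg hK hNF h1 h3 heff
      · push Not at h3
        obtain ⟨ι, hι, h3⟩ := h3
        obtain ⟨F', hF', hdeg', hdot⟩ := exists_smaller (ℓ := ℓ) D e a M heff hneg
          (fun i j hij => by
            have := pair_le (gp_inj n ℓ) hF h2 hij
            rw [hai, hai, hFe] at this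
            exact this) hNF ι hι
          (three_le D X M α hα hanti hX8 hother hstd ι hι) h3
        have := ih F'.totalDegree hdeg' F' hF' rfl (by omega)
        omega
  intro F hF hE
  exact key _ F hF rfl hE

end Pool.MP_70e04f_ag.Strip
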