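import Pool.Agent.Lib_MP_70e04f_thin.TDefs
import Pool.Agent.Lib_MP_70e04f_cre.Defs

/-!
# Piece TPOSA: numerical lemmas for the reduction
-/

set_option autoImplicit false

namespace Pool.MP_70e04f_ag.Strip

open MvPolynomial

theorem TPosA_low {n e δ : ℕ} {a : Fin n → ℕ} {ι : Fin 3 → Fin n}
    (hsum : ∑ j, a (ι j) = e + δ) (hpair : ∀ j k, j ≠ k → a (ι j) + a (ι k) ≤ e) :
    ∀ j, δ ≤ a (ι j) := by
  have hs3 : ∑ j, a (ι j) = a (ι 0) + a (ι 1) + a (ι 2) := Fin.sum_univ_three _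
  have h01 := hpair 0 1 (by decide)
  have h02 := hpair 0 2 (by decide)
  have h12 := hpair 1 2 (by decide)
  intro j
  fin_cases j
  · change δ ≤ a (ι 0); omega
  · change δ ≤ a (ι 1); omega
  · change δ ≤ a (ι 2); omega

/-- The numerical part of the reduction to standard form.
PROOF. All `a (ι j) ≥ δ` (`hsum`, `hpair`), so `cm` is an honest subtraction and
`∑ M (cm a ι δ) = ∑ M a - δ ∑ j, M (ι j)`. So
`D e' - ∑ M (cm a ι δ) = (D e - ∑ M a) - δ (D - ∑ j, M (ι j)) ≤ 0`. -/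
theorem cm_nonpos {n : ℕ} (D e e' δ : ℕ) (a M : Fin n → ℕ) (ι : Fin 3 → Fin n)
    (hι : Function.Injective ι) (hd : e' + δ = e) (hsum : ∑ j, a (ι j) = e + δ)
    (hpair : ∀ j k, j ≠ k → a (ι j) + a (ι k) ≤ e) (hM : ∑ j, M (ι j) ≤ D)
    (hNF : D * e ≤ ∑ i, M i * a i) : D * e' ≤ ∑ i, M i * Cre.cm a ι δ i := by
  classical
  have hlow := TPosA_low hsum hpair
  have h1 : ∀ i, M i * a i = M i * Cre.cm a ι δ i +
      (if i ∈ Finset.univ.image ι then M i * δ else 0) := by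
    intro i
    unfold Cre.cm
    split_ifs with h
    · obtain ⟨j, _, rfl⟩ := Finset.mem_image.1 h
      rw [← Nat.mul_add, Nat.sub_add_cancel (hlow j)]
    · rfl
  have h2 : ∑ i, M i * a i = ∑ i, M i * Cre.cm a ι δ i + (∑ j, M (ι j)) * δ := by
    rw [Finset.sum_congr rfl fun i _ => h1 i, Finset.sum_add_distrib]
    congr 1
    rw [← Finset.sum_filter, Finset.filter_mem_eq_inter, Finset.univ_inter,
      Finset.sum_image (fun a _ b _ h => hι h), Finset.sum_mul]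
  have h3 : (∑ j, M (ι j)) * δ ≤ D * δ := Nat.mul_le_mul_right _ hM
  have h4 : D * e = D * e' + D * δ := by rw [← hd]; ring
  omega

/-- PROOF. If `cm a ι δ = 0` then `a` vanishes outside of the `ι j` and `a (ι j) = δ` for all `j` (as
`δ ≤ a (ι j)`), so `3 δ = e + δ`, `e = 2 δ` and `∑ a ^ 2 = 3 δ ^ 2 ≤ 4 δ ^ 2 = e ^ 2`. -/
theorem cm_ne_zero {n : ℕ} (e δ : ℕ) (a : Fin n → ℕ) (ι : Fin 3 → Fin n)
    (hι : Function.Injective ι) (hsum : ∑ j, a (ι j) = e + δ)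
    (hpair : ∀ j k, j ≠ k → a (ι j) + a (ι k) ≤ e) (hneg : e ^ 2 < ∑ i, a i ^ 2) :
    ∃ i, 1 ≤ Cre.cm a ι δ i := by
  classical
  by_contra hcon
  push Not at hcon
  have hlow := TPosA_low hsum hpair
  have h0 : ∀ i, Cre.cm a ι δ i = 0 := fun i => by have := hcon i; omega
  have hmem : ∀ j, ι j ∈ Finset.univ.image ι := fun j =>
    Finset.mem_image_of_mem ι (Finset.mem_univ j)
  have h1 : ∀ j, a (ι j) = δ := by
    intro j
    have h := h0 (ι j)
    unfold Cre.cm at h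
    rw [if_pos (hmem j)] at h
    have := hlow j
    omega
  have h2 : ∑ i, a i ^ 2 = ∑ j, a (ι j) ^ 2 := by
    rw [← Finset.sum_image (f := fun i => a i ^ 2) (fun a _ b _ h => hι h)]
    symm
    apply Finset.sum_subset (Finset.subset_univ _)
    intro i _ hi
    have h := h0 i
    unfold Cre.cm at h
    rw [if_neg hi] at h
    rw [h]
    rfl
  rw [h2] at hneg
  simp only [h1, Fin.sum_univ_three] at hneg hsum
  have h3 : e = 2 * δ := by omega
  rw [h3] at hneg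
  nlinarith

/-- `χ ≤ 0` for the class of a curve with `F ^ 2 < 0` and `K F ≥ 0`.
PROOF. `e ^ 2 + 1 ≤ ∑ a ^ 2`, `3 e ≤ ∑ a`, so `e ^ 2 + 3 e + 1 ≤ ∑ a (a + 1)`; the right side is even
(`Nat.even_mul_succ_self`) and `e ^ 2 + 3 e` is even. -/
theorem chi_le {n : ℕ} (e : ℕ) (a : Fin n → ℕ) (hneg : e ^ 2 < ∑ i, a i ^ 2)
    (hK : 3 * e ≤ ∑ i, a i) : (e + 1) * (e + 2) ≤ ∑ i, a i * (a i + 1) := by
  have h1 : ∑ i, a i * (a i + 1) = ∑ i, a i ^ 2 + ∑ i, a i := by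
    rw [← Finset.sum_add_distrib]
    exact Finset.sum_congr rfl fun i _ => by ring
  have h2 : Even (∑ i, a i * (a i + 1)) :=
    Finset.even_sum _ fun i _ => Nat.even_mul_succ_self (a i)
  have h3 : Even ((e + 1) * (e + 2)) := Nat.even_mul_succ_self (e + 1)
  have h4 : (e + 1) * (e + 2) = e ^ 2 + 3 * e + 2 := by ring
  obtain ⟨u, hu⟩ := h2
  obtain ⟨v, hv⟩ := h3
  omega

end Pool.MP_70e04f_ag.Strip
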