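import Pool.Agent.Lib_MP_70e04f_thin.TPosA
import Pool.Agent.Lib_MP_70e04f_thin.TEff
import Pool.Agent.Lib_MP_70e04f_thin.TCre
import Pool.Agent.Lib_MP_70e04f_thin.TFactC

/-!
# Piece TPOSB: a curve of smaller degree from a quadratic transformation
-/

set_option autoImplicit false

namespace Pool.MP_70e04f_ag.Strip

open MvPolynomial

/-- PROOF. Let `δ = ∑ j, a (ι j) - e > 0`, `δ ≤ e` (`2 ∑ j, a (ι j) ≤ 3 e` by `hpair`) and `e' = e - δ`.
`Eff0 e' (cm a ι δ)` (`Eff0.cremona`), so `EffL n ℓ e' (cm a ι δ)` (`Eff0.effL`). By `cm_nonpos`,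
`cm_ne_zero` and `exists_component` there is an irreducible curve of degree `≤ e' < e` with
`dotp ≤ 0`. -/
theorem exists_smaller {n ℓ : ℕ} [Fact ℓ.Prime] (D e : ℕ) (a M : Fin n → ℕ) (heff : Eff0 e a)
    (hneg : e ^ 2 < ∑ i, a i ^ 2) (hpair : ∀ i j, i ≠ j → a i + a j ≤ e)
    (hNF : D * e ≤ ∑ i, M i * a i) (ι : Fin 3 → Fin n) (hι : Function.Injective ι)
    (hM : ∑ j, M (ι j) ≤ D) (h3 : e < ∑ j, a (ι j)) :
    ∃ F : A2 (KK n ℓ), Irreducible F ∧ F.totalDegree < e ∧ dotp D M (gp n ℓ) F ≤ 0 := by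
  have hpair' : ∀ j k, j ≠ k → a (ι j) + a (ι k) ≤ e := fun j k hjk =>
    hpair _ _ (fun h => hjk (hι h))
  have hs3 : ∑ j, a (ι j) = a (ι 0) + a (ι 1) + a (ι 2) := Fin.sum_univ_three _
  have h01 := hpair' 0 1 (by decide)
  have h02 := hpair' 0 2 (by decide)
  have h12 := hpair' 1 2 (by decide)
  obtain ⟨δ, hδ⟩ : ∃ δ, ∑ j, a (ι j) = e + δ := ⟨∑ j, a (ι j) - e, by omega⟩
  obtain ⟨e', he'⟩ : ∃ e', e' + δ = e := ⟨e - δ, by omega⟩
  have hup : ∀ j, a (ι j) ≤ e := by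
    intro j
    fin_cases j
    · exact (Nat.le_add_right _ _).trans h01
    · exact (Nat.le_add_left _ _).trans h01
    · exact (Nat.le_add_left _ _).trans h02
  have heff' : Eff0 e' (Cre.cm a ι δ) := heff.cremona hι he' hδ
    (fun j k hjk => (hpair' j k hjk).trans (Nat.le_succ e)) hup
  obtain ⟨G, hG, hGe, hGa⟩ := heff'.effL ℓ
  obtain ⟨i0, hi0⟩ := cm_ne_zero e δ a ι hι hδ hpair' hneg
  obtain ⟨F, hF, hdeg, hdot⟩ := exists_component D M (gp n ℓ) e' (Cre.cm a ι δ)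
    (cm_nonpos D e e' δ a M ι hι he' hδ hpair' hM hNF) hG hGe hGa i0 hi0
  exact ⟨F, hF, by omega, hdot⟩

end Pool.MP_70e04f_ag.Strip
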